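import Pool.Agent.Lib.Pad47bbY.Integral
import Pool.Agent.Lib.Pad47bbM.Mink
import Pool.Agent.Lib.Pad47bbM.Van
import Pool.Agent.Lib.Pad47bbV.Volume
import Pool.Agent.Lib.Pad47bbK.Pair
import Pool.Agent.Lib.Pad47bb.Exist

/-!
A closed cone with a rational polyhedral fundamental domain is cut out by finitely many orbits of
integral functionals.
-/

open Set Topology MeasureTheory

namespace Pool.Agent.Lib.Pad47bbY

open Pool.Agent.Lib.Pad47bb Pool.Agent.Lib.Pad47bbV Pool.Agent.Lib.Pad47bbQ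
  Pool.Agent.Lib.Pad47bbM

variable {V : Type*} [NormedAddCommGroup V] [NormedSpace ℝ V] [FiniteDimensional ℝ V]

/-- An open set is not covered by countably many proper subspaces. -/
theorem exists_avoid {ι : Type*} (I : Set ι) (hI : I.Countable) (A : ι → Submodule ℝ V)
    {O : Set V} (hO : IsOpen O) (hne : O.Nonempty) :
    ∃ e ∈ O, ∀ i ∈ I, A i ≠ ⊤ → e ∉ A i := by
  let _ : MeasurableSpace V := borel V
  have _ : BorelSpace V := ⟨rfl⟩
  let μ : Measure V := Measure.addHaar
  have h1 : μ (⋃ i ∈ {i ∈ I | A i ≠ ⊤}, (A i : Set V)) = 0 := by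
    refine (measure_biUnion_null_iff (hI.mono (sep_subset _ _))).2 ?_
    rintro i ⟨-, hi⟩
    exact Measure.addHaar_submodule μ (A i) hi
  have h2 : 0 < μ O := hO.measure_pos μ hne
  by_contra h
  push Not at h
  have h3 : O ⊆ ⋃ i ∈ {i ∈ I | A i ≠ ⊤}, (A i : Set V) := by
    intro e he
    obtain ⟨i, hi, hi', hei⟩ := h e he
    exact mem_biUnion (show i ∈ {i ∈ I | A i ≠ ⊤} from ⟨hi, hi'⟩) hei
  have h4 := measure_mono (μ := μ) h3
  rw [h1] at h4
  exact absurd h4 (not_le.2 h2)

omit [FiniteDimensional ℝ V] in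
/-- The segment from an interior point to a point outside leaves the cone at a boundary point. -/
theorem exists_exit {N : PointedCone ℝ V} (hN : Good N) {e x₀ : V}
    (he : e ∈ interior (N : Set V)) (hx₀ : x₀ ∉ N) :
    ∃ a τ : ℝ, 0 < a ∧ 0 < τ ∧ a + τ = 1 ∧ a • e + τ • x₀ ∈ N ∧
      a • e + τ • x₀ ∉ interior (N : Set V) := by
  have h1 : IsPreconnected (segment ℝ e x₀) := (convex_segment e x₀).isPreconnected
  obtain ⟨b, ⟨a, τ, ha, hτ, haτ, rfl⟩, hb⟩ : ∃ b ∈ segment ℝ e x₀,
      b ∉ interior (N : Set V) ∪ (N : Set V)ᶜ := by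
    by_contra h
    push Not at h
    obtain ⟨y, -, hy1, hy2⟩ := h1 (interior (N : Set V)) (N : Set V)ᶜ isOpen_interior
      hN.closed.isOpen_compl (fun x hx => h x hx) ⟨e, left_mem_segment ℝ e x₀, he⟩
      ⟨x₀, right_mem_segment ℝ e x₀, hx₀⟩
    exact hy2 (interior_subset hy1)
  have hbN : a • e + τ • x₀ ∈ (N : Set V) := by
    by_contra h
    exact hb (Or.inr h)
  have hbi : a • e + τ • x₀ ∉ interior (N : Set V) := fun h => hb (Or.inl h)
  refine ⟨a, τ, lt_of_le_of_ne ha ?_, lt_of_le_of_ne hτ ?_, haτ, hbN, hbi⟩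
  · rintro rfl
    rw [zero_add] at haτ
    subst haτ
    rw [zero_smul, one_smul, zero_add] at hbN
    exact hx₀ hbN
  · rintro rfl
    rw [add_zero] at haτ
    subst haτ
    rw [zero_smul, one_smul, add_zero] at hbi
    exact hbi he

variable {L : Submodule ℤ V} [DiscreteTopology L] [IsZLattice ℝ L]

/-- A cone with a rational polyhedral fundamental domain is cut out by finitely many orbits of
integral functionals. -/
theorem exists_finite_walls {N : PointedCone ℝ V} (hN : Good N) {Γ : Subgroup (V ≃ₗ[ℝ] V)}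
    (hA : Acts L N Γ) {s : Finset V} (hsL : (s : Set V) ⊆ L) (hsN : ∀ a ∈ s, a ∈ N)
    (hcov : ∀ x ∈ interior (N : Set V), ∃ g ∈ Γ, ∃ y ∈ PointedCone.hull ℝ (s : Set V),
      g y = x) :
    ∃ Y : Finset (V →L[ℝ] ℝ), (∀ ξ ∈ Y, (∀ x ∈ L, ∃ k : ℤ, ξ x = k) ∧ ∀ x ∈ N, 0 ≤ ξ x) ∧
      ∀ x, (∀ g ∈ Γ, ∀ ξ ∈ Y, 0 ≤ ξ (g x)) → x ∈ N := by
  classical
  have hclN : closure (N : Set V) = N := hN.closed.closure_eq
  obtain ⟨f, hpos, hint, -⟩ := exists_functional L N Γ hA.map_lattice hA.map_cone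
    (fun x hx hx' => hN.salient x (by rwa [hclN] at hx) (by rwa [hclN] at hx'))
    hN.interior_nonempty
  have hf0 : ∀ x ∈ N, 0 ≤ f x := by
    intro x hx
    by_cases h : x = 0
    · rw [h, map_zero]
    · exact (hpos x (subset_closure hx) h).le
  obtain ⟨Φ, hΦΓ, -, hΦ⟩ := dickson s (Γ : Set (V ≃ₗ[ℝ] V)) ⟨1, one_mem Γ⟩ f (by
    intro g hg a ha
    exact nat_values (L := L) hpos hint (hA.map_lattice g hg a (hsL ha))
      (hA.map_cone g hg a (hsN a ha)))
  -- the functionals attached to subsets of `s`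
  let Q : Finset V → Prop := fun t => ∃ ξ : V →L[ℝ] ℝ, (∀ x ∈ L, ∃ k : ℤ, ξ x = k) ∧
    (∀ x ∈ N, 0 ≤ ξ x) ∧ ξ ≠ 0 ∧ ∀ a ∈ t, ξ a = 0
  have hQ : ∀ t, Q t → ∃ ξ : V →L[ℝ] ℝ, (∀ x ∈ L, ∃ k : ℤ, ξ x = k) ∧
    (∀ x ∈ N, 0 ≤ ξ x) ∧ ξ ≠ 0 ∧ ∀ a ∈ t, ξ a = 0 := fun t ht => ht
  choose! w hwint hwN hw0 hwt using hQ
  refine ⟨insert f ((s.powerset.filter Q).image w), ?_, ?_⟩
  · intro ξ hξ
    rcases Finset.mem_insert.1 hξ with rfl | hξ
    · exact ⟨hint, hf0⟩
    · obtain ⟨t, ht, rfl⟩ := Finset.mem_image.1 hξ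
      have h1 := (Finset.mem_filter.1 ht).2
      exact ⟨hwint t h1, hwN t h1⟩
  · intro x₀ hx₀
    by_contra hx₀N
    -- a generic interior point
    obtain ⟨e, he, hav⟩ := exists_avoid
      ((Γ : Set (V ≃ₗ[ℝ] V)) ×ˢ (s.powerset : Set (Finset V)))
      ((countable_of_acts hA).prod (Finset.countable_toSet _))
      (fun i => Submodule.span ℝ ((i.2.image i.1 : Finset V) : Set V) ⊔
        Submodule.span ℝ {x₀}) isOpen_interior hN.interior_nonempty
    obtain ⟨a, τ, ha, hτ, haτ, hbN, hbi⟩ := exists_exit hN he hx₀N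
    set b := a • e + τ • x₀ with hb
    -- a supporting functional
    obtain ⟨ψ, hψN, hψb, v, hv, hψv⟩ := exists_support N hbN (interior_subset he) (by
      intro ε hε h
      apply hbi
      have h1 := interior_add_mem (interior_smul_mem he hε) h
      rwa [add_sub_cancel] at h1)
    have hψ0 : ψ ≠ 0 := by
      rintro rfl
      exact hψv rfl
    have hψe : 0 < ψ e := by
      refine lt_of_le_of_ne (hψN e (interior_subset he)) fun h => hψ0 ?_
      exact Pool.Agent.Lib.Pad47bbK.eq_zero_of_interior he ψ hψN h.symm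
    have hψx : ψ x₀ < 0 := by
      have h1 : a * ψ e + τ * ψ x₀ = 0 := by
        rw [← hψb, hb, map_add, map_smul, map_smul, smul_eq_mul, smul_eq_mul]
      by_contra h2
      have h3 := mul_nonneg hτ.le (not_lt.1 h2)
      have h4 := mul_pos ha hψe
      linarith
    -- the values of `f`
    have hfx₀ : ∀ g ∈ Γ, 0 ≤ f (g x₀) := fun g hg => hx₀ g hg f (Finset.mem_insert_self _ _)
    set C := f e + f b with hC
    have hfe : 0 ≤ f e := hf0 e (interior_subset he)
    have hfb : 0 ≤ f b := hf0 b hbN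
    have hH : {h : V ≃ₗ[ℝ] V | h ∈ (Γ : Set (V ≃ₗ[ℝ] V)) ∧ f (h e) ≤ C / a}.Finite :=
      finite_le L N (Γ : Set (V ≃ₗ[ℝ] V)) hA.map_lattice hA.map_cone f hpos e he _
    set H := hH.toFinset with hHdef
    let F : Finset (V ≃ₗ[ℝ] V) := (H ×ˢ Φ).image (fun p => p.1⁻¹ * p.2)
    have hFΓ : ∀ g ∈ F, g ∈ Γ := by
      intro g hg
      obtain ⟨p, hp, rfl⟩ := Finset.mem_image.1 hg
      have h1 := Finset.mem_product.1 hp
      exact mul_mem (inv_mem ((hH.mem_toFinset.1 h1.1).1)) (hΦΓ h1.2)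
    let E : Set V := ⋃ g ∈ (F : Set (V ≃ₗ[ℝ] V)),
      (g : V → V) '' (PointedCone.hull ℝ (s : Set V) : Set V)
    have hE : IsClosed E := by
      refine F.finite_toSet.isClosed_biUnion fun g _ => ?_
      exact g.toContinuousLinearEquiv.toHomeomorph.isClosedMap _ (isClosed_hull_finset s)
    have hxE : ∀ u : ℝ, 0 < u → u ≤ 1 → (1 - u) • b + u • e ∈ E := by
      intro u hu0 hu1
      have hint' : (1 - u) • b + u • e ∈ interior (N : Set V) := by
        rw [add_comm]
        exact interior_add_mem (interior_smul_mem he hu0)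
          (PointedCone.smul_mem N (by linarith) hbN)
      obtain ⟨g, hg, y, hy, hgy⟩ := hcov _ hint'
      obtain ⟨φ, hφ, hφm⟩ := hΦ g hg
      have h1 : f (φ y) ≤ C := by
        refine (hφm y hy).trans ?_
        rw [hgy, map_add, map_smul, map_smul, smul_eq_mul, smul_eq_mul]
        nlinarith
      have hh : φ * g⁻¹ ∈ Γ := mul_mem (hΦΓ hφ) (inv_mem hg)
      have h2 : (φ * g⁻¹) ((1 - u) • b + u • e) = φ y := by
        rw [← hgy]
        show φ (g⁻¹ (g y)) = φ y
        congr 1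
        exact g.symm_apply_apply y
      have h3 : f ((φ * g⁻¹) e) ≤ C / a := by
        rw [le_div_iff₀ ha]
        have h4 : f ((φ * g⁻¹) ((1 - u) • b + u • e)) =
            (1 - u) * (a * f ((φ * g⁻¹) e) + τ * f ((φ * g⁻¹) x₀)) +
              u * f ((φ * g⁻¹) e) := by
          rw [hb]
          simp only [map_add, map_smul, smul_eq_mul]
        rw [h2] at h4
        have h5 := hfx₀ _ hh
        have h6 : 0 ≤ f ((φ * g⁻¹) e) := hf0 _ (hA.map_cone _ hh _ (interior_subset he))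
        have h7 : 0 ≤ (1 - u) * (τ * f ((φ * g⁻¹) x₀)) :=
          mul_nonneg (by linarith) (mul_nonneg hτ.le h5)
        have h8 : 0 ≤ u * ((1 - a) * f ((φ * g⁻¹) e)) :=
          mul_nonneg hu0.le (mul_nonneg (by linarith) h6)
        nlinarith
      have h9 : φ * g⁻¹ ∈ H := hH.mem_toFinset.2 ⟨hh, h3⟩
      have h10 : g = (φ * g⁻¹)⁻¹ * φ := by group
      refine mem_biUnion (x := g) ?_ ⟨y, hy, hgy⟩
      exact Finset.mem_coe.2 (Finset.mem_image.2 ⟨(φ * g⁻¹, φ),
        Finset.mem_product.2 ⟨h9, hφ⟩, h10.symm⟩)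
    have hbE : b ∈ E := by
      have hc : Continuous fun u : ℝ => (1 - u) • b + u • e := by fun_prop
      have h1 : Filter.Tendsto (fun u : ℝ => (1 - u) • b + u • e) (𝓝[>] 0) (𝓝 b) := by
        have h2 := (hc.tendsto 0).mono_left (nhdsWithin_le_nhds (s := Ioi 0))
        simpa using h2
      refine hE.mem_of_tendsto h1 ?_
      have h3 : Ioc (0 : ℝ) 1 ∈ 𝓝[>] (0 : ℝ) := Ioc_mem_nhdsGT zero_lt_one
      filter_upwards [h3] with u hu
      exact hxE u hu.1 hu.2
    obtain ⟨g, hgF, y, hy, hgy⟩ := mem_iUnion₂.1 hbE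
    have hg : g ∈ Γ := hFΓ g hgF
    obtain ⟨c, hc, hyc⟩ := mem_hull_finset.1 hy
    set t := s.filter (fun p => ψ (g p) = 0) with ht
    -- `b` is in the span of the translates of the elements of `t`
    have hbt : b ∈ Submodule.span ℝ ((t.image g : Finset V) : Set V) := by
      have h1 : ∑ p ∈ s, c p * ψ (g p) = 0 := by
        rw [← hψb, ← hgy, hyc, map_sum, map_sum]
        refine Finset.sum_congr rfl fun p _ => ?_
        rw [map_smul, map_smul, smul_eq_mul]
      have h2 := (Finset.sum_eq_zero_iff_of_nonneg fun p hp => mul_nonneg (hc p hp)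
        (hψN _ (hA.map_cone g hg p (hsN p hp)))).1 h1
      rw [← hgy, hyc, map_sum]
      refine Submodule.sum_mem _ fun p hp => ?_
      rw [map_smul]
      rcases mul_eq_zero.1 (h2 p hp) with h3 | h3
      · rw [h3, zero_smul]
        exact Submodule.zero_mem _
      · refine Submodule.smul_mem _ _ (Submodule.subset_span (Finset.mem_coe.2
          (Finset.mem_image_of_mem _ (Finset.mem_filter.2 ⟨hp, h3⟩))))
    have hts : t ∈ s.powerset := Finset.mem_powerset.2 (Finset.filter_subset _ _)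
    have htop : Submodule.span ℝ ((t.image g : Finset V) : Set V) ⊔
        Submodule.span ℝ {x₀} = ⊤ := by
      by_contra hne
      refine hav (g, t) ⟨hg, Finset.mem_coe.2 hts⟩ hne ?_
      have h1 : e = a⁻¹ • b + (-(a⁻¹ * τ)) • x₀ := by
        rw [hb, smul_add, smul_smul, smul_smul, inv_mul_cancel₀ ha.ne', one_smul, neg_smul]
        abel
      rw [h1]
      exact Submodule.add_mem _ (Submodule.smul_mem _ _ (Submodule.mem_sup_left hbt))
        (Submodule.smul_mem _ _ (Submodule.mem_sup_right (Submodule.mem_span_singleton_self x₀)))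
    have hspan0 : ∀ z ∈ Submodule.span ℝ ((t.image g : Finset V) : Set V), ψ z = 0 := by
      intro z hz
      induction hz using Submodule.span_induction with
      | mem x hx =>
        obtain ⟨p, hp, rfl⟩ := Finset.mem_image.1 (Finset.mem_coe.1 hx)
        exact (Finset.mem_filter.1 hp).2
      | zero => exact map_zero ψ
      | add x y _ _ hx hy => rw [map_add, hx, hy, add_zero]
      | smul c x _ hx => rw [map_smul, hx, smul_zero]
    have hker : ∀ x, ψ x = 0 → x ∈ Submodule.span ℝ ((t.image g : Finset V) : Set V) := by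
      intro x hx
      have h1 : x ∈ Submodule.span ℝ ((t.image g : Finset V) : Set V) ⊔
        Submodule.span ℝ {x₀} := by rw [htop]; trivial
      obtain ⟨z, hz, r', hr', rfl⟩ := Submodule.mem_sup.1 h1
      obtain ⟨r, rfl⟩ := Submodule.mem_span_singleton.1 hr'
      rw [map_add, hspan0 z hz, zero_add, map_smul, smul_eq_mul] at hx
      rcases mul_eq_zero.1 hx with h2 | h2
      · rw [h2, zero_smul, add_zero]
        exact hz
      · exact absurd h2 hψx.ne
    -- pull back by `g`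
    let ψ' : V →L[ℝ] ℝ := ψ.comp (LinearMap.toContinuousLinearMap (g : V →ₗ[ℝ] V))
    have hψ' : ∀ x, ψ' x = ψ (g x) := fun x => rfl
    have hψ'N : ∀ x ∈ N, 0 ≤ ψ' x := fun x hx => hψN _ (hA.map_cone g hg x hx)
    have hge : g (g⁻¹ e) = e := g.apply_symm_apply e
    have hgx₀ : g (g⁻¹ x₀) = x₀ := g.apply_symm_apply x₀
    have hψ'0 : ψ' ≠ 0 := by
      intro h
      have h1 : ψ' (g⁻¹ e) = 0 := by rw [h]; rfl
      rw [hψ', hge] at h1
      exact hψe.ne' h1
    have hker' : ∀ x, ψ' x = 0 → x ∈ Submodule.span ℝ (t : Set V) := by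
      intro x hx
      have h1 := hker (g x) hx
      have h2 : Submodule.span ℝ ((t.image g : Finset V) : Set V) =
          (Submodule.span ℝ (t : Set V)).map (g : V →ₗ[ℝ] V) := by
        rw [Submodule.map_span, Finset.coe_image]
        rfl
      rw [h2] at h1
      obtain ⟨z, hz, hzx⟩ := h1
      have h3 : z = x := g.injective hzx
      rwa [← h3]
    obtain ⟨k, hk, hkint⟩ := exists_integral (L := L) (s := t)
      (fun p hp => hsL (Finset.mem_filter.1 (Finset.mem_coe.1 hp)).1) hψ'0 hker'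
      (fun p hp => (Finset.mem_filter.1 hp).2)
    have hQt : Q t := by
      refine ⟨k • ψ', fun x hx => hkint x hx, fun x hx => ?_, ?_, fun p hp => ?_⟩
      · show 0 ≤ k • ψ' x
        exact smul_nonneg hk.le (hψ'N x hx)
      · exact smul_ne_zero hk.ne' hψ'0
      · show k • ψ' p = 0
        rw [hψ', (Finset.mem_filter.1 hp).2, smul_zero]
    -- `w t` is a positive multiple of `ψ'`
    have hwspan : ∀ z ∈ Submodule.span ℝ (t : Set V), w t z = 0 := by
      intro z hz
      induction hz using Submodule.span_induction with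
      | mem x hx => exact hwt t hQt x hx
      | zero => exact map_zero (w t)
      | add x y _ _ hx hy => rw [map_add, hx, hy, add_zero]
      | smul c x _ hx => rw [map_smul, hx, smul_zero]
    have hψ'e : ψ' (g⁻¹ e) = ψ e := by rw [hψ', hge]
    have hprop : ∀ x, w t x = w t (g⁻¹ e) / ψ e * ψ' x := by
      intro x
      have h1 : ψ' (x - (ψ' x / ψ e) • g⁻¹ e) = 0 := by
        rw [map_sub, map_smul, smul_eq_mul, hψ'e, div_mul_cancel₀ _ hψe.ne', sub_self]
      have h2 := hwspan _ (hker' _ h1)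
      rw [map_sub, map_smul, smul_eq_mul, sub_eq_zero] at h2
      rw [h2]
      ring
    have hge' : g⁻¹ e ∈ interior (N : Set V) :=
      interior_map_mem (hA.map_cone g⁻¹ (inv_mem hg)) he
    have hwe : 0 < w t (g⁻¹ e) := by
      refine lt_of_le_of_ne (hwN t hQt _ (interior_subset hge')) fun h => hw0 t hQt ?_
      exact Pool.Agent.Lib.Pad47bbK.eq_zero_of_interior hge' (w t) (hwN t hQt) h.symm
    have h1 := hx₀ g⁻¹ (inv_mem hg) (w t) (Finset.mem_insert_of_mem
      (Finset.mem_image_of_mem _ (Finset.mem_filter.2 ⟨hts, hQt⟩)))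
    rw [hprop, hψ', hgx₀] at h1
    have h2 : w t (g⁻¹ e) / ψ e * ψ x₀ < 0 :=
      mul_neg_of_pos_of_neg (div_pos hwe hψe) hψx
    linarith

end Pool.Agent.Lib.Pad47bbY
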