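import Pool.Agent.Lib.Pad47bbY.Final
import Pool.Agent.Lib.Pad47bbY.Dual

/-!
Closed cones fibred over a cone with a rational polyhedral fundamental domain: there is a rational
polyhedral fundamental domain if and only if the walls have bounded multiplicity.
-/

open Set Topology

namespace Pool.Agent.Lib.Pad47bbY

open Pool.Agent.Lib.Pad47bb Pool.Agent.Lib.Pad47bbB Pool.Agent.Lib.Pad47bbV

/-- `C` is cut out, over `N`, by integral walls of bounded multiplicity: `C` is the set of the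
pairs `(x, t)`, `x ∈ N`, with `m t ≤ ξ x` for all `(ξ, m)` in a `G`-invariant set `S` of pairs of
linear functionals, `ξ` integral on `M` and nonnegative on `N`, `m` integral on `Λ`, such that only
finitely many `m` occur. -/
def BoundedWalls {U W : Type*} [NormedAddCommGroup U] [NormedSpace ℝ U] [NormedAddCommGroup W]
    [NormedSpace ℝ W] (M : Submodule ℤ U) (Λ : Submodule ℤ W) (N : PointedCone ℝ U)
    (G : Subgroup (U ≃ₗ[ℝ] U)) (C : PointedCone ℝ (U × W)) : Prop :=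
  ∃ S : Set ((U →L[ℝ] ℝ) × (W →L[ℝ] ℝ)),
    (∀ s ∈ S, (∀ x ∈ M, ∃ k : ℤ, s.1 x = k) ∧ (∀ x ∈ N, 0 ≤ s.1 x) ∧
      ∀ t ∈ Λ, ∃ k : ℤ, s.2 t = k) ∧
    (Prod.snd '' S).Finite ∧
    (∀ s ∈ S, ∀ g ∈ G, ∃ s' ∈ S, s'.2 = s.2 ∧ ∀ x, s'.1 x = s.1 (g x)) ∧
    ∀ p : U × W, p ∈ C ↔ p.1 ∈ N ∧ ∀ s ∈ S, s.2 p.2 ≤ s.1 p.1

variable {U W : Type*} [NormedAddCommGroup U] [NormedSpace ℝ U] [FiniteDimensional ℝ U]
  [NormedAddCommGroup W] [NormedSpace ℝ W] [FiniteDimensional ℝ W]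
  {M : Submodule ℤ U} [DiscreteTopology M] [IsZLattice ℝ M]
  {Λ : Submodule ℤ W} [DiscreteTopology Λ] [IsZLattice ℝ Λ]

omit [DiscreteTopology M] [IsZLattice ℝ M] [FiniteDimensional ℝ U] in
/-- A cone with bounded walls is a wall cone. -/
theorem BoundedWalls.exists_wallCone {N : PointedCone ℝ U} {G : Subgroup (U ≃ₗ[ℝ] U)}
    {C : PointedCone ℝ (U × W)} (hC : (interior (C : Set (U × W))).Nonempty)
    (H : BoundedWalls M Λ N G C) :
    ∃ (T : PointedCone ℝ W) (S : Set ((U →L[ℝ] ℝ) × (W →L[ℝ] ℝ))), IsRatPoly Λ T ∧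
      (interior (T : Set W)).Nonempty ∧ IsWalls M Λ N G S ∧ C = wallCone N T S := by
  classical
  obtain ⟨S, hS, hfin, hinv, hmem⟩ := H
  -- the functionals with zero first component
  have hfin0 : {m : W →L[ℝ] ℝ | (0, m) ∈ S}.Finite :=
    hfin.subset fun m hm => ⟨(0, m), hm, rfl⟩
  let Z := hfin0.toFinset
  have hZ : ∀ m, m ∈ Z ↔ ((0, m) : (U →L[ℝ] ℝ) × (W →L[ℝ] ℝ)) ∈ S := fun m =>
    hfin0.mem_toFinset
  let b := (Module.Free.chooseBasis ℤ Λ).ofZLatticeBasis ℝ Λ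
  have hbL : ∀ i, b i ∈ Λ := fun i => by simp [b]
  let B : Finset W := Finset.univ.image b
  have hBL : ∀ p ∈ B, p ∈ Λ := by
    intro p hp
    obtain ⟨i, -, rfl⟩ := Finset.mem_image.1 hp
    exact hbL i
  have hBtop : Submodule.span ℝ (B : Set W) = ⊤ := by
    have h1 : (B : Set W) = Set.range b := by
      rw [Finset.coe_image, Finset.coe_univ, image_univ]
    rw [h1]
    exact b.span_eq
  have hTop := isRatPoly_span Λ B hBL
  let T : PointedCone ℝ W := (Submodule.span ℝ (B : Set W)).restrictScalars _ ⊓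
    ⨅ m ∈ Z.image (fun m => -m), halfSpace m
  have hT : IsRatPoly Λ T := by
    refine hTop.inf_halfSpaces (Z.image fun m => -m) (fun m => m) ?_
    intro m hm x hx
    obtain ⟨m', hm', rfl⟩ := Finset.mem_image.1 hm
    obtain ⟨k, hk⟩ := (hS _ ((hZ m').1 hm')).2.2 x hx
    exact ⟨-k, by
      show -(m' x) = _
      rw [hk]
      push_cast
      ring⟩
  have hmemT : ∀ t, t ∈ T ↔ ∀ m ∈ Z, m t ≤ 0 := by
    intro t
    simp only [T, Submodule.mem_inf, Submodule.mem_iInf, mem_halfSpace, Finset.mem_image,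
      Submodule.restrictScalars_mem, hBtop]
    constructor
    · rintro ⟨-, h⟩ m hm
      have h1 := h (-m) ⟨m, hm, rfl⟩
      have h2 : (-m) t = -(m t) := rfl
      rw [h2] at h1
      linarith
    · intro h
      refine ⟨trivial, ?_⟩
      rintro _ ⟨m, hm, rfl⟩
      show 0 ≤ -(m t)
      linarith [h m hm]
  have hCT : ∀ p ∈ C, p.2 ∈ T := by
    intro p hp
    rw [hmemT]
    intro m hm
    have h1 := ((hmem p).1 hp).2 _ ((hZ m).1 hm)
    exact h1
  refine ⟨T, {s ∈ S | s.1 ≠ 0}, hT, ?_, ?_, ?_⟩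
  · obtain ⟨e, he⟩ := hC
    refine ⟨e.2, ?_⟩
    rw [mem_interior]
    refine ⟨Prod.snd '' interior (C : Set (U × W)), ?_, isOpenMap_snd _ isOpen_interior,
      ⟨e, he, rfl⟩⟩
    rintro _ ⟨p, hp, rfl⟩
    exact hCT p (interior_subset hp)
  · refine ⟨fun s hs => (hS s hs.1).1, fun s hs => (hS s hs.1).2.1, fun s hs => hs.2,
      fun s hs => (hS s hs.1).2.2, hfin.subset (image_mono (sep_subset _ _)), ?_⟩
    rintro s ⟨hs, hs0⟩ g hg
    obtain ⟨s', hs', h1, h2⟩ := hinv s hs g hg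
    refine ⟨s', ⟨hs', fun h0 => hs0 ?_⟩, h1, h2⟩
    ext x
    have h3 := h2 (g⁻¹ x)
    have h4 : g (g⁻¹ x) = x := g.apply_symm_apply x
    rw [h0, h4] at h3
    exact h3.symm
  · ext p
    rw [mem_wallCone, hmem]
    constructor
    · rintro ⟨h1, h2⟩
      exact ⟨h1, hCT p ((hmem p).2 ⟨h1, h2⟩), fun s hs => h2 s hs.1⟩
    · rintro ⟨h1, h2, h3⟩
      refine ⟨h1, fun s hs => ?_⟩
      by_cases h0 : s.1 = 0
      · have h4 : s.2 ∈ Z := (hZ _).2 (by
          have h5 : s = (0, s.2) := Prod.ext h0 rfl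
          rwa [← h5])
        have h5 := (hmemT _).1 h2 _ h4
        rw [h0]
        exact h5
      · exact h3 s ⟨hs, h0⟩

/-- A cone with a rational polyhedral fundamental domain has bounded walls. -/
theorem boundedWalls_of_hasRPFD {N : PointedCone ℝ U} {G : Subgroup (U ≃ₗ[ℝ] U)}
    {C : PointedCone ℝ (U × W)} (hC : Good C) (hC1 : ∀ x ∈ N, ((x, 0) : U × W) ∈ C)
    (hC2 : ∀ p ∈ C, p.1 ∈ N) (hNG : ∀ g ∈ G, ∀ x ∈ N, g x ∈ N)
    (hA : Acts (M.prod Λ) C (prodGroup W G))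
    (hR : HasRPFD (M.prod Λ) (prodGroup W G) (ratHull (M.prod Λ) C)) :
    BoundedWalls M Λ N G C := by
  classical
  have := prod_discrete (M := M) (Λ := Λ)
  have := prod_isZLattice (M := M) (Λ := Λ)
  obtain ⟨P, ⟨s, hs, rfl⟩, hcov, -⟩ := hR
  have hsC := IsRatPoly.le_of_cover hcov
  obtain ⟨Y, hY, hcut⟩ := exists_finite_walls hC hA hs
    (fun a ha => ratHull_le (hsC (Submodule.subset_span ha))) (fun x hx => by
      have h1 : x ∈ (ratHull (M.prod Λ) C : Set (U × W)) := interior_subset_ratHull C hx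
      rw [hcov] at h1
      obtain ⟨g, hg, y, hy, hyx⟩ := mem_iUnion₂.1 h1
      exact ⟨g, hg, y, hy, hyx⟩)
  let fst' : ((U × W) →L[ℝ] ℝ) → (U ≃ₗ[ℝ] U) → (U →L[ℝ] ℝ) := fun η g =>
    (η.comp (ContinuousLinearMap.inl ℝ U W)).comp
      (LinearMap.toContinuousLinearMap (g : U →ₗ[ℝ] U))
  have hfst : ∀ η g x, fst' η g x = η (g x, 0) := fun η g x => rfl
  let snd' : ((U × W) →L[ℝ] ℝ) → (W →L[ℝ] ℝ) := fun η =>
    -(η.comp (ContinuousLinearMap.inr ℝ U W))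
  have hsnd : ∀ η t, snd' η t = -η (0, t) := fun η t => rfl
  have hsum : ∀ (η : (U × W) →L[ℝ] ℝ) (g : U ≃ₗ[ℝ] U) (p : U × W),
      η (g p.1, p.2) = fst' η g p.1 - snd' η p.2 := by
    intro η g p
    rw [hfst, hsnd, sub_neg_eq_add, ← map_add]
    congr 1
    ext <;> simp
  refine ⟨{q | ∃ η ∈ Y, ∃ g ∈ G, q = (fst' η g, snd' η)}, ?_, ?_, ?_, ?_⟩
  · rintro _ ⟨η, hη, g, hg, rfl⟩
    have hG : ∀ x ∈ M, g x ∈ M := by
      intro x hx
      have h1 := hA.map_lattice (LinearEquiv.prodCongr g (LinearEquiv.refl ℝ W))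
        ⟨g, hg, fun x => rfl⟩ (x, 0) ⟨hx, Λ.zero_mem⟩
      exact h1.1
    refine ⟨fun x hx => ?_, fun x hx => ?_, fun t ht => ?_⟩
    · exact (hY η hη).1 (g x, 0) ⟨hG x hx, Λ.zero_mem⟩
    · exact (hY η hη).2 _ (hC1 _ (hNG g hg x hx))
    · obtain ⟨k, hk⟩ := (hY η hη).1 (0, t) ⟨M.zero_mem, ht⟩
      exact ⟨-k, by
        show -η (0, t) = _
        rw [hk]
        push_cast
        ring⟩
  · refine (Y.finite_toSet.image snd').subset ?_
    rintro _ ⟨_, ⟨η, hη, g, hg, rfl⟩, rfl⟩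
    exact ⟨η, hη, rfl⟩
  · rintro _ ⟨η, hη, g, hg, rfl⟩ h hh
    exact ⟨(fst' η (g * h), snd' η), ⟨η, hη, g * h, mul_mem hg hh, rfl⟩, rfl, fun x => rfl⟩
  · intro p
    constructor
    · intro hp
      refine ⟨hC2 p hp, ?_⟩
      rintro _ ⟨η, hη, g, hg, rfl⟩
      have h1 := hA.map_cone (LinearEquiv.prodCongr g (LinearEquiv.refl ℝ W))
        ⟨g, hg, fun x => rfl⟩ p hp
      have h2 := (hY η hη).2 _ h1
      have h3 : η (g p.1, p.2) = fst' η g p.1 - snd' η p.2 := hsum η g p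
      have h4 : (0 : ℝ) ≤ η (g p.1, p.2) := h2
      rw [h3] at h4
      show snd' η p.2 ≤ fst' η g p.1
      linarith
    · rintro ⟨-, h⟩
      refine hcut p ?_
      rintro φ ⟨g, hg, e⟩ η hη
      have h1 : snd' η p.2 ≤ fst' η g p.1 := h _ ⟨η, hη, g, hg, rfl⟩
      rw [e, hsum]
      linarith

/-- Closed cones fibred over a cone with a rational polyhedral fundamental domain. -/
theorem hasRPFD_fibred_iff [Nontrivial U] {N : PointedCone ℝ U} (hN : Good N)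
    {G : Subgroup (U ≃ₗ[ℝ] U)} (hA : Acts M N G) (hK : HasRPFD M G (ratHull M N))
    {C : PointedCone ℝ (U × W)} (hC : Good C) (hC1 : ∀ x ∈ N, ((x, 0) : U × W) ∈ C)
    (hC2 : ∀ p ∈ C, p.1 ∈ N) {Γ : Subgroup ((U × W) ≃ₗ[ℝ] (U × W))}
    (hΓ : prodGroup W G ≤ Γ) (hfi : ((prodGroup W G).subgroupOf Γ).FiniteIndex)
    (hΓA : Acts (M.prod Λ) C Γ) :
    HasRPFD (M.prod Λ) Γ (ratHull (M.prod Λ) C) ↔ BoundedWalls M Λ N G C := by
  have := prod_discrete (M := M) (Λ := Λ)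
  have := prod_isZLattice (M := M) (Λ := Λ)
  constructor
  · intro h
    have hS : Setting (M.prod Λ) (ratHull (M.prod Λ) C) Γ :=
      setting_ratHull hC hΓA (interior_subset_ratHull C)
    have h1 := (hasRPFD_subgroup_iff hΓ hS).2 ⟨h, hfi⟩
    exact boundedWalls_of_hasRPFD hC hC1 hC2 hA.map_cone
      ⟨fun g hg => hΓA.map_lattice g (hΓ hg), fun g hg => hΓA.map_cone g (hΓ hg)⟩ h1
  · intro h
    obtain ⟨T, S, hT, hTi, hS, rfl⟩ := h.exists_wallCone hC.interior_nonempty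
    exact hasRPFD_wallCone_ratHull hN hA hK hS hT hTi hC.salient hΓ hΓA

end Pool.Agent.Lib.Pad47bbY
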