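import Pool.Agent.Lib.Pad47bb.Index
import Pool.Agent.Lib.Pad47bbB.Main
import Pool.Agent.Lib.Pad47bb.RatNbhd
import Pool.Agent.Lib.Pad47bbK.Pair

/-!
Integral walls of bounded multiplicity over a cone with a rational polyhedral fundamental domain.
-/

open Set Topology

namespace Pool.Agent.Lib.Pad47bbY

open Pool.Agent.Lib.Pad47bb Pool.Agent.Lib.Pad47bbB Pool.Agent.Lib.Pad47bbV

variable {U W : Type*} [NormedAddCommGroup U] [NormedSpace ℝ U] [NormedAddCommGroup W]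
  [NormedSpace ℝ W]

/-- The automorphisms `(u, t) ↦ (g u, t)` of `U × W`, `g ∈ G`. -/
def prodGroup (W : Type*) [NormedAddCommGroup W] [NormedSpace ℝ W]
    (G : Subgroup (U ≃ₗ[ℝ] U)) : Subgroup ((U × W) ≃ₗ[ℝ] (U × W)) where
  carrier := {φ | ∃ g ∈ G, ∀ x, φ x = (g x.1, x.2)}
  mul_mem' := by
    rintro φ ψ ⟨g, hg, e⟩ ⟨g', hg', e'⟩
    refine ⟨g * g', mul_mem hg hg', fun x => ?_⟩
    show φ (ψ x) = (g (g' x.1), x.2)
    rw [e', e]
  one_mem' := ⟨1, one_mem G, fun x => rfl⟩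
  inv_mem' := by
    rintro φ ⟨g, hg, e⟩
    refine ⟨g⁻¹, inv_mem hg, fun x => ?_⟩
    have h1 : φ (g⁻¹ x.1, x.2) = x := by
      rw [e]
      exact Prod.ext (g.apply_symm_apply x.1) rfl
    have h2 : φ⁻¹ (φ (g⁻¹ x.1, x.2)) = (g⁻¹ x.1, x.2) := φ.symm_apply_apply _
    rw [h1] at h2
    exact h2

/-- The cone of the pairs `(u, t)`, `u ∈ K`, `t ∈ T`, with `m t ≤ ξ u` for all `(ξ, m) ∈ S`. -/
def wallCone (K : PointedCone ℝ U) (T : PointedCone ℝ W)
    (S : Set ((U →L[ℝ] ℝ) × (W →L[ℝ] ℝ))) : PointedCone ℝ (U × W) where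
  carrier := {x | x.1 ∈ K ∧ x.2 ∈ T ∧ ∀ s ∈ S, s.2 x.2 ≤ s.1 x.1}
  add_mem' := by
    rintro x y ⟨hx1, hx2, hx3⟩ ⟨hy1, hy2, hy3⟩
    refine ⟨K.add_mem hx1 hy1, T.add_mem hx2 hy2, fun s hs => ?_⟩
    rw [Prod.fst_add, Prod.snd_add, map_add, map_add]
    exact add_le_add (hx3 s hs) (hy3 s hs)
  zero_mem' := by
    refine ⟨K.zero_mem, T.zero_mem, fun s _ => ?_⟩
    simp
  smul_mem' := by
    rintro c x ⟨hx1, hx2, hx3⟩
    refine ⟨Submodule.smul_mem K c hx1, Submodule.smul_mem T c hx2, fun s hs => ?_⟩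
    show s.2 ((c : ℝ) • x.2) ≤ s.1 ((c : ℝ) • x.1)
    rw [map_smul, map_smul, smul_eq_mul, smul_eq_mul]
    exact mul_le_mul_of_nonneg_left (hx3 s hs) c.2

theorem mem_wallCone {K : PointedCone ℝ U} {T : PointedCone ℝ W}
    {S : Set ((U →L[ℝ] ℝ) × (W →L[ℝ] ℝ))} {x : U × W} :
    x ∈ wallCone K T S ↔ x.1 ∈ K ∧ x.2 ∈ T ∧ ∀ s ∈ S, s.2 x.2 ≤ s.1 x.1 := Iff.rfl

/-- `S` is a `G`-invariant set of integral walls over `K` with finitely many multiplicities: the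
first components are nonzero functionals, integral on `M` and nonnegative on `K`; the second
components are integral on `Λ` and finite in number. -/
structure IsWalls (M : Submodule ℤ U) (Λ : Submodule ℤ W) (K : PointedCone ℝ U)
    (G : Subgroup (U ≃ₗ[ℝ] U)) (S : Set ((U →L[ℝ] ℝ) × (W →L[ℝ] ℝ))) : Prop where
  integral : ∀ s ∈ S, ∀ x ∈ M, ∃ k : ℤ, s.1 x = k
  nonneg : ∀ s ∈ S, ∀ x ∈ K, 0 ≤ s.1 x
  ne_zero : ∀ s ∈ S, s.1 ≠ 0
  mult_integral : ∀ s ∈ S, ∀ t ∈ Λ, ∃ k : ℤ, s.2 t = k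
  mult_finite : (Prod.snd '' S).Finite
  invariant : ∀ s ∈ S, ∀ g ∈ G, ∃ s' ∈ S, s'.2 = s.2 ∧ ∀ x, s'.1 x = s.1 (g x)

theorem IsWalls.mono {M : Submodule ℤ U} {Λ : Submodule ℤ W} {K K' : PointedCone ℝ U}
    {G G' : Subgroup (U ≃ₗ[ℝ] U)} {S : Set ((U →L[ℝ] ℝ) × (W →L[ℝ] ℝ))}
    (H : IsWalls M Λ K G S) (hK : K' ≤ K) (hG : G' ≤ G) : IsWalls M Λ K' G' S :=
  ⟨H.integral, fun s hs x hx => H.nonneg s hs x (hK hx), H.ne_zero, H.mult_integral,
    H.mult_finite, fun s hs g hg => H.invariant s hs g (hG hg)⟩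

/-- Dickson's lemma for the walls of a given multiplicity. -/
theorem exists_walls_aux (Y : Finset U) (S : Set ((U →L[ℝ] ℝ) × (W →L[ℝ] ℝ)))
    (hY : ∀ s ∈ S, ∀ y ∈ Y, ∃ n : ℕ, s.1 y = n) :
    ∃ T : Finset ((U →L[ℝ] ℝ) × (W →L[ℝ] ℝ)),
      (T : Set ((U →L[ℝ] ℝ) × (W →L[ℝ] ℝ))) ⊆ S ∧
      ∀ s ∈ S, ∃ τ ∈ T, ∀ y ∈ Y, τ.1 y ≤ s.1 y := by
  classical
  choose! a ha using hY
  let F : ((U →L[ℝ] ℝ) × (W →L[ℝ] ℝ)) → (Y → ℕ) := fun s y => a s y
  let R : Set (Y → ℕ) := F '' S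
  let M : Set (Y → ℕ) := {m | Minimal (· ∈ R) m}
  have hMfin : M.Finite := by
    apply WellQuasiOrderedLE.finite_of_isAntichain
    intro a ha b hb hab hle
    exact hab (le_antisymm hle (hb.le_of_le ha.prop hle))
  have hMR : ∀ m ∈ M, ∃ g ∈ S, F g = m := fun m hm => hm.prop
  choose! γ hγ hγF using hMR
  refine ⟨hMfin.toFinset.image γ, ?_, ?_⟩
  · intro g hg
    obtain ⟨m, hm, rfl⟩ := Finset.mem_image.1 hg
    exact hγ m (hMfin.mem_toFinset.1 hm)
  · intro s hs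
    obtain ⟨m, hm, hmin⟩ := exists_minimal_le_of_wellFoundedLT (· ∈ R) (F s) ⟨s, hs, rfl⟩
    have hτ := hγ m hmin
    have hle : ∀ i, F (γ m) i ≤ F s i := fun i => by rw [hγF m hmin]; exact hm i
    refine ⟨γ m, Finset.mem_image_of_mem _ (hMfin.mem_toFinset.2 hmin), ?_⟩
    intro y hy
    have h1 : a (γ m) y ≤ a s y := hle ⟨y, hy⟩
    rw [ha _ hτ y hy, ha _ hs y hy]
    exact_mod_cast h1

/-- Dickson's lemma for the walls. -/
theorem exists_walls (Y : Finset U) (S : Set ((U →L[ℝ] ℝ) × (W →L[ℝ] ℝ)))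
    (hfin : (Prod.snd '' S).Finite) (hY : ∀ s ∈ S, ∀ y ∈ Y, ∃ n : ℕ, s.1 y = n) :
    ∃ T : Finset ((U →L[ℝ] ℝ) × (W →L[ℝ] ℝ)),
      (T : Set ((U →L[ℝ] ℝ) × (W →L[ℝ] ℝ))) ⊆ S ∧
      ∀ s ∈ S, ∃ τ ∈ T, (∀ y ∈ Y, τ.1 y ≤ s.1 y) ∧ s.2 = τ.2 := by
  classical
  have h1 : ∀ m : W →L[ℝ] ℝ, ∃ T : Finset ((U →L[ℝ] ℝ) × (W →L[ℝ] ℝ)),
      (T : Set ((U →L[ℝ] ℝ) × (W →L[ℝ] ℝ))) ⊆ {s | s ∈ S ∧ s.2 = m} ∧
      ∀ s ∈ {s | s ∈ S ∧ s.2 = m}, ∃ τ ∈ T, ∀ y ∈ Y, τ.1 y ≤ s.1 y := fun m =>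
    exists_walls_aux Y {s | s ∈ S ∧ s.2 = m} fun s hs => hY s hs.1
  choose T hTS hT using h1
  refine ⟨hfin.toFinset.biUnion T, ?_, ?_⟩
  · intro τ hτ
    obtain ⟨m, -, hm⟩ := Finset.mem_biUnion.1 (Finset.mem_coe.1 hτ)
    exact (hTS m hm).1
  · intro s hs
    obtain ⟨τ, hτ, hτy⟩ := hT s.2 s ⟨hs, rfl⟩
    refine ⟨τ, Finset.mem_biUnion.2 ⟨s.2, hfin.mem_toFinset.2 ⟨s, hs, rfl⟩, hτ⟩, hτy, ?_⟩
    exact (hTS s.2 hτ).2.symm

variable {M : Submodule ℤ U} {Λ : Submodule ℤ W}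

omit [NormedSpace ℝ U] [NormedSpace ℝ W] in
theorem prod_discrete [DiscreteTopology M] [DiscreteTopology Λ] :
    DiscreteTopology (M.prod Λ) := by
  let φ : M.prod Λ → M × Λ := fun x => (⟨x.1.1, x.2.1⟩, ⟨x.1.2, x.2.2⟩)
  have hc : Continuous φ := by
    refine Continuous.prodMk ?_ ?_
    · exact Continuous.subtype_mk (continuous_fst.comp continuous_subtype_val) _
    · exact Continuous.subtype_mk (continuous_snd.comp continuous_subtype_val) _
  have hi : Function.Injective φ := by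
    intro x y hxy
    apply Subtype.ext
    have h2 := congrArg (fun z => z.1.1) hxy
    have h3 := congrArg (fun z => z.2.1) hxy
    exact Prod.ext h2 h3
  exact DiscreteTopology.of_continuous_injective hc hi

theorem prod_isZLattice [DiscreteTopology M] [DiscreteTopology Λ] [IsZLattice ℝ M]
    [IsZLattice ℝ Λ] [DiscreteTopology (M.prod Λ)] : IsZLattice ℝ (M.prod Λ) := by
  refine ⟨?_⟩
  rw [eq_top_iff]
  rintro ⟨u, t⟩ _
  have h1 : u ∈ Submodule.span ℝ (M : Set U) := by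
    rw [IsZLattice.span_top (K := ℝ) (L := M)]
    trivial
  have h1' : t ∈ Submodule.span ℝ (Λ : Set W) := by
    rw [IsZLattice.span_top (K := ℝ) (L := Λ)]
    trivial
  have h2 : Submodule.span ℝ (M : Set U) ≤
      (Submodule.span ℝ (M.prod Λ : Set (U × W))).comap (LinearMap.inl ℝ U W) := by
    refine Submodule.span_le.2 fun y hy => ?_
    exact Submodule.subset_span ⟨hy, Λ.zero_mem⟩
  have h3 : Submodule.span ℝ (Λ : Set W) ≤
      (Submodule.span ℝ (M.prod Λ : Set (U × W))).comap (LinearMap.inr ℝ U W) := by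
    refine Submodule.span_le.2 fun y hy => ?_
    exact Submodule.subset_span ⟨M.zero_mem, hy⟩
  have h4 : ((u, t) : U × W) = LinearMap.inl ℝ U W u + LinearMap.inr ℝ U W t := by
    ext <;> simp
  rw [h4]
  exact Submodule.add_mem _ (h2 h1) (h3 h1')

/-- The part of the wall cone over a rational polyhedral cone is rational polyhedral. -/
theorem isRatPoly_wallCone {K : PointedCone ℝ U} {G : Subgroup (U ≃ₗ[ℝ] U)}
    {S : Set ((U →L[ℝ] ℝ) × (W →L[ℝ] ℝ))} (H : IsWalls M Λ K G S) {T : PointedCone ℝ W}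
    (hT : IsRatPoly Λ T) (s : Finset U) (hsM : (s : Set U) ⊆ (M : Set U))
    (hsK : PointedCone.hull ℝ (s : Set U) ≤ K) :
    IsRatPoly (M.prod Λ) (wallCone (PointedCone.hull ℝ (s : Set U)) T S) := by
  classical
  obtain ⟨t, htΛ, rfl⟩ := hT
  -- values at the generators
  have hnat : ∀ p ∈ S, ∀ y ∈ s, ∃ n : ℕ, p.1 y = n := by
    intro p hp y hy
    obtain ⟨k, hk⟩ := H.integral p hp y (hsM hy)
    have h0 := H.nonneg p hp y (hsK (Submodule.subset_span hy))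
    rw [hk] at h0
    have hk0 : 0 ≤ k := by exact_mod_cast h0
    obtain ⟨m, hm⟩ := Int.eq_ofNat_of_zero_le hk0
    exact ⟨m, by rw [hk, hm]; simp⟩
  obtain ⟨F, hFS, hF⟩ := exists_walls s S H.mult_finite hnat
  -- the product of the two hulls
  let P : PointedCone ℝ (U × W) := PointedCone.hull ℝ
    ((s.image (fun y => ((y, 0) : U × W)) ∪ t.image (fun y => ((0, y) : U × W)) :
      Finset (U × W)) : Set (U × W))
  have hP : IsRatPoly (M.prod Λ) P := by
    refine ⟨_, ?_, rfl⟩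
    intro x hx
    rcases Finset.mem_union.1 (Finset.mem_coe.1 hx) with hx | hx
    · obtain ⟨y, hy, rfl⟩ := Finset.mem_image.1 hx
      exact ⟨hsM hy, Λ.zero_mem⟩
    · obtain ⟨y, hy, rfl⟩ := Finset.mem_image.1 hx
      exact ⟨M.zero_mem, htΛ hy⟩
  have hmemP : ∀ x : U × W, x ∈ P ↔ x.1 ∈ PointedCone.hull ℝ (s : Set U) ∧
      x.2 ∈ PointedCone.hull ℝ (t : Set W) := by
    intro x
    constructor
    · intro hx
      induction hx using Submodule.span_induction with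
      | mem x hx =>
        rcases Finset.mem_union.1 (Finset.mem_coe.1 hx) with hx | hx
        · obtain ⟨y, hy, rfl⟩ := Finset.mem_image.1 hx
          exact ⟨Submodule.subset_span hy, Submodule.zero_mem _⟩
        · obtain ⟨y, hy, rfl⟩ := Finset.mem_image.1 hx
          exact ⟨Submodule.zero_mem _, Submodule.subset_span hy⟩
      | zero => exact ⟨Submodule.zero_mem _, Submodule.zero_mem _⟩
      | add x y _ _ hx hy => exact ⟨Submodule.add_mem _ hx.1 hy.1, Submodule.add_mem _ hx.2 hy.2⟩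
      | smul c x _ hx => exact ⟨Submodule.smul_mem _ c hx.1, Submodule.smul_mem _ c hx.2⟩
    · rintro ⟨h1, h2⟩
      obtain ⟨c, hc, hxc⟩ := mem_hull_finset.1 h1
      obtain ⟨d, hd, hxd⟩ := mem_hull_finset.1 h2
      have hx : x = ∑ y ∈ s, c y • ((y, 0) : U × W) + ∑ y ∈ t, d y • ((0, y) : U × W) := by
        apply Prod.ext
        · rw [hxc]
          simp [Prod.fst_sum]
        · rw [hxd]
          simp [Prod.snd_sum]
      rw [hx]
      refine Submodule.add_mem _ (Submodule.sum_mem _ fun y hy => ?_)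
        (Submodule.sum_mem _ fun y hy => ?_)
      · exact P.smul_mem (hc y hy) (Submodule.subset_span (Finset.mem_coe.2
          (Finset.mem_union_left _ (Finset.mem_image_of_mem _ hy))))
      · exact P.smul_mem (hd y hy) (Submodule.subset_span (Finset.mem_coe.2
          (Finset.mem_union_right _ (Finset.mem_image_of_mem _ hy))))
  let η : ((U →L[ℝ] ℝ) × (W →L[ℝ] ℝ)) → (U × W) →L[ℝ] ℝ := fun τ =>
    τ.1.comp (ContinuousLinearMap.fst ℝ U W) - τ.2.comp (ContinuousLinearMap.snd ℝ U W)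
  have hη : ∀ τ x, η τ x = τ.1 x.1 - τ.2 x.2 := fun τ x => rfl
  have hηint : ∀ τ ∈ F, ∀ x ∈ M.prod Λ, ∃ k : ℤ, η τ x = k := by
    intro τ hτ x hx
    obtain ⟨j, hj⟩ := H.integral τ (hFS hτ) _ hx.1
    obtain ⟨k, hk⟩ := H.mult_integral τ (hFS hτ) _ hx.2
    exact ⟨j - k, by rw [hη, hj, hk]; push_cast; ring⟩
  have h1 := hP.inf_halfSpaces F η hηint
  have heq : wallCone (PointedCone.hull ℝ (s : Set U)) (PointedCone.hull ℝ (t : Set W)) S =
      P ⊓ ⨅ τ ∈ F, halfSpace (η τ) := by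
    ext x
    rw [mem_wallCone, Submodule.mem_inf, hmemP]
    simp only [Submodule.mem_iInf, mem_halfSpace, hη, sub_nonneg]
    constructor
    · rintro ⟨h2, h3, h4⟩
      exact ⟨⟨h2, h3⟩, fun τ hτ => h4 τ (hFS hτ)⟩
    · rintro ⟨⟨h2, h3⟩, h4⟩
      refine ⟨h2, h3, fun p hp => ?_⟩
      obtain ⟨τ, hτ, hτy, hτm⟩ := hF p hp
      obtain ⟨c, hc, hxc⟩ := mem_hull_finset.1 h2
      have h5 : τ.1 x.1 ≤ p.1 x.1 := by
        rw [hxc, map_sum, map_sum]
        refine Finset.sum_le_sum fun y hy => ?_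
        rw [map_smul, map_smul, smul_eq_mul, smul_eq_mul]
        exact mul_le_mul_of_nonneg_left (hτy y hy) (hc y hy)
      rw [hτm]
      exact (h4 τ hτ).trans h5
  rw [heq]
  exact h1

variable [FiniteDimensional ℝ U] [FiniteDimensional ℝ W] [DiscreteTopology M] [IsZLattice ℝ M]

/-- A lattice point in the interior of a cone. -/
theorem exists_lattice_mem_interior {K : PointedCone ℝ U} [Nontrivial U]
    (hK : (interior (K : Set U)).Nonempty) : ∃ v ∈ M, v ∈ interior (K : Set U) := by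
  obtain ⟨v, h1, -, h2⟩ := Pool.Agent.Lib.Pad47bb.exists_lattice_interior (L := M) hK
  exact ⟨v, h1, h2⟩

omit [FiniteDimensional ℝ W] in
/-- The wall cone has an interior point. -/
theorem interior_wallCone [Nontrivial U] {K : PointedCone ℝ U} {G : Subgroup (U ≃ₗ[ℝ] U)}
    (hK : (interior (K : Set U)).Nonempty) {S : Set ((U →L[ℝ] ℝ) × (W →L[ℝ] ℝ))}
    (H : IsWalls M Λ K G S) {T : PointedCone ℝ W} (hT : (interior (T : Set W)).Nonempty) :
    (interior (wallCone K T S : Set (U × W))).Nonempty := by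
  obtain ⟨v, hvM, hv⟩ := exists_lattice_mem_interior (M := M) hK
  have hv2 : (2⁻¹ : ℝ) • v ∈ interior (K : Set U) := interior_smul' hv (by norm_num)
  obtain ⟨δ, hδ, hball⟩ := Metric.isOpen_iff.1 isOpen_interior _ hv2
  obtain ⟨w, hw⟩ := hT
  -- a small neighbourhood of `0` on which all multiplicities are at most `1 / 2`
  let Z : Set W := ⋂ m ∈ Prod.snd '' S, {t | m t < 1 / 2}
  have hZ : IsOpen Z := H.mult_finite.isOpen_biInter fun m _ =>
    isOpen_lt m.continuous continuous_const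
  have h0Z : (0 : W) ∈ Z := by
    simp only [Z, mem_iInter]
    intro m _
    show m 0 < 1 / 2
    rw [map_zero]
    norm_num
  have hcw : Continuous fun r : ℝ => r • w := by fun_prop
  have h1 : (fun r : ℝ => r • w) ⁻¹' Z ∈ 𝓝 (0 : ℝ) := by
    refine hcw.continuousAt.preimage_mem_nhds ?_
    rw [zero_smul]
    exact hZ.mem_nhds h0Z
  obtain ⟨ε, hε, hballε⟩ := Metric.mem_nhds_iff.1 h1
  have hwZ : (ε / 2) • w ∈ Z := by
    refine hballε ?_
    rw [mem_ball_zero_iff, Real.norm_eq_abs, abs_of_pos (by positivity)]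
    linarith
  have hwT : (ε / 2) • w ∈ interior (T : Set W) := interior_smul' hw (by positivity)
  refine ⟨(v, (ε / 2) • w), ?_⟩
  rw [mem_interior]
  refine ⟨{x | ‖x.1 - v‖ < δ} ∩ {x | x.2 ∈ interior (T : Set W) ∩ Z}, ?_, ?_, ?_⟩
  · rintro x ⟨hx1, hx2, hx3⟩
    have h1 : x.1 - (2⁻¹ : ℝ) • v ∈ K := by
      refine interior_subset (hball ?_)
      rw [mem_ball_iff_norm]
      have : x.1 - (2⁻¹ : ℝ) • v - (2⁻¹ : ℝ) • v = x.1 - v := by
        rw [sub_sub, ← add_smul]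
        norm_num
      rwa [this]
    refine ⟨?_, interior_subset hx2, fun p hp => ?_⟩
    · have h2 := K.add_mem h1 (interior_subset hv2)
      rwa [sub_add_cancel] at h2
    · have h2 := H.nonneg p hp _ h1
      rw [map_sub, map_smul, smul_eq_mul] at h2
      -- `p v` is at least one
      obtain ⟨k, hk⟩ := H.integral p hp v hvM
      have h3 : 0 ≤ p.1 v := H.nonneg p hp v (interior_subset hv)
      have h4 : p.1 v ≠ 0 := fun h0 => H.ne_zero p hp
        (Pool.Agent.Lib.Pad47bbK.eq_zero_of_interior hv p.1 (H.nonneg p hp) h0)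
      have h5 : 1 ≤ p.1 v := by
        rw [hk] at h3 h4 ⊢
        have h6 : 0 ≤ k := by exact_mod_cast h3
        have h7 : k ≠ 0 := by
          rintro rfl
          simp at h4
        have h8 : 1 ≤ k := by omega
        exact_mod_cast h8
      have h6 : p.2 x.2 < 1 / 2 := by
        simp only [Z, mem_iInter] at hx3
        exact hx3 p.2 ⟨p, hp, rfl⟩
      linarith
  · refine IsOpen.inter ?_ ?_
    · exact isOpen_lt ((continuous_fst.sub continuous_const).norm) continuous_const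
    · exact (isOpen_interior.inter hZ).preimage continuous_snd
  · refine ⟨?_, hwT, hwZ⟩
    show ‖v - v‖ < δ
    rw [sub_self, norm_zero]
    exact hδ

omit [FiniteDimensional ℝ U] [FiniteDimensional ℝ W] in
/-- The wall cone contains no line. -/
theorem salient_wallCone {K : PointedCone ℝ U}
    (hK : ∀ x ∈ closure (K : Set U), -x ∈ closure (K : Set U) → x = 0)
    {S : Set ((U →L[ℝ] ℝ) × (W →L[ℝ] ℝ))} {T : PointedCone ℝ W}
    (hT : ∀ x ∈ closure (T : Set W), -x ∈ closure (T : Set W) → x = 0) :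
    ∀ x ∈ closure (wallCone K T S : Set (U × W)),
      -x ∈ closure (wallCone K T S : Set (U × W)) → x = 0 := by
  have hcl : closure (wallCone K T S : Set (U × W)) ⊆
      {x | x.1 ∈ closure (K : Set U) ∧ x.2 ∈ closure (T : Set W)} := by
    refine closure_minimal (fun x hx => ⟨subset_closure hx.1, subset_closure hx.2.1⟩) ?_
    exact (isClosed_closure.preimage continuous_fst).inter
      (isClosed_closure.preimage continuous_snd)
  intro x hx hx'
  have h1 := hcl hx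
  have h2 := hcl hx'
  exact Prod.ext (hK x.1 h1.1 h2.1) (hT x.2 h1.2 h2.2)

omit [FiniteDimensional ℝ U] [FiniteDimensional ℝ W] [DiscreteTopology M] [IsZLattice ℝ M] in
/-- The group of `U` acts on the wall cone. -/
theorem prodGroup_map_cone {K : PointedCone ℝ U} {G : Subgroup (U ≃ₗ[ℝ] U)}
    (hK : ∀ g ∈ G, ∀ x ∈ K, g x ∈ K) {S : Set ((U →L[ℝ] ℝ) × (W →L[ℝ] ℝ))}
    {K₀ : PointedCone ℝ U} (H : IsWalls M Λ K₀ G S) {T : PointedCone ℝ W} :
    ∀ φ ∈ prodGroup W G, ∀ x ∈ wallCone K T S, φ x ∈ wallCone K T S := by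
  rintro φ ⟨g, hg, e⟩ x hx
  rw [e]
  refine ⟨hK g hg _ hx.1, hx.2.1, fun p hp => ?_⟩
  obtain ⟨p', hp', h1, h2⟩ := H.invariant p hp g hg
  have h3 := hx.2.2 p' hp'
  rw [h1, h2] at h3
  exact h3

omit [FiniteDimensional ℝ U] [FiniteDimensional ℝ W] [DiscreteTopology M] [IsZLattice ℝ M] in
/-- The translates of the part of the wall cone over `P` cover the wall cone. -/
theorem cover_wallCone {K P : PointedCone ℝ U} {G : Subgroup (U ≃ₗ[ℝ] U)}
    (hcov : (K : Set U) = ⋃ g ∈ G, (g : U → U) '' (P : Set U))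
    {S : Set ((U →L[ℝ] ℝ) × (W →L[ℝ] ℝ))} {K₀ : PointedCone ℝ U} (H : IsWalls M Λ K₀ G S)
    {T : PointedCone ℝ W} {x : U × W} (hx : x ∈ wallCone K T S) :
    ∃ φ ∈ prodGroup W G, ∃ y ∈ wallCone P T S, φ y = x := by
  have h1 : x.1 ∈ (K : Set U) := hx.1
  rw [hcov] at h1
  obtain ⟨g, hg, y, hy, hyx⟩ := mem_iUnion₂.1 h1
  let φ : (U × W) ≃ₗ[ℝ] (U × W) := LinearEquiv.prodCongr g (LinearEquiv.refl ℝ W)
  have hφ : φ ∈ prodGroup W G := ⟨g, hg, fun x => rfl⟩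
  refine ⟨φ, hφ, (y, x.2), ⟨hy, hx.2.1, fun p hp => ?_⟩, Prod.ext hyx rfl⟩
  obtain ⟨p', hp', h2, h3⟩ := H.invariant p hp g⁻¹ (inv_mem hg)
  have h4 := hx.2.2 p' hp'
  rw [h2, h3, ← hyx] at h4
  have h5 : g⁻¹ (g y) = y := g.symm_apply_apply y
  rwa [h5] at h4

variable [DiscreteTopology Λ] [IsZLattice ℝ Λ]

/-- Walls of bounded multiplicity over a cone with a rational polyhedral fundamental domain. -/
theorem hasRPFD_wallCone [Nontrivial U] {K : PointedCone ℝ U} {G : Subgroup (U ≃ₗ[ℝ] U)}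
    (hS : Setting M K G) (hK : HasRPFD M G K) {S : Set ((U →L[ℝ] ℝ) × (W →L[ℝ] ℝ))}
    (H : IsWalls M Λ K G S) {T : PointedCone ℝ W} (hTr : IsRatPoly Λ T)
    (hTi : (interior (T : Set W)).Nonempty)
    (hs : ∀ x ∈ closure (wallCone K T S : Set (U × W)),
      -x ∈ closure (wallCone K T S : Set (U × W)) → x = 0)
    {Γ : Subgroup ((U × W) ≃ₗ[ℝ] (U × W))} (hΓ : prodGroup W G ≤ Γ)
    (hΓL : ∀ φ ∈ Γ, ∀ x ∈ M.prod Λ, φ x ∈ M.prod Λ)
    (hΓC : ∀ φ ∈ Γ, ∀ x ∈ wallCone K T S, φ x ∈ wallCone K T S) :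
    HasRPFD (M.prod Λ) Γ (wallCone K T S) := by
  obtain ⟨P, ⟨s, hsM, rfl⟩, hcov, -⟩ := hK
  have hsK : PointedCone.hull ℝ (s : Set U) ≤ K := IsRatPoly.le_of_cover hcov
  have := prod_discrete (M := M) (Λ := Λ)
  have := prod_isZLattice (M := M) (Λ := Λ)
  have hSW : Setting (M.prod Λ) (wallCone K T S) Γ :=
    ⟨hs, interior_wallCone hS.interior_nonempty H hTi, hΓL, hΓC⟩
  refine exists_fundDomain hSW (isRatPoly_wallCone H hTr s hsM hsK) ?_
  apply Subset.antisymm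
  · intro x hx
    obtain ⟨φ, hφ, y, hy, rfl⟩ := cover_wallCone hcov H hx
    exact mem_iUnion₂.2 ⟨φ, hΓ hφ, y, hy, rfl⟩
  · intro x hx
    obtain ⟨φ, hφ, y, hy, rfl⟩ := mem_iUnion₂.1 hx
    exact hSW.map_cone φ hφ y ⟨hsK hy.1, hy.2.1, hy.2.2⟩

omit [FiniteDimensional ℝ W] [DiscreteTopology Λ] [IsZLattice ℝ Λ] in
/-- Conversely, a rational polyhedral fundamental domain for the wall cone gives one for `K`. -/
theorem hasRPFD_of_wallCone {K : PointedCone ℝ U} {G : Subgroup (U ≃ₗ[ℝ] U)}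
    (hS : Setting M K G) {S : Set ((U →L[ℝ] ℝ) × (W →L[ℝ] ℝ))} (H : IsWalls M Λ K G S)
    {T : PointedCone ℝ W} (hW : HasRPFD (M.prod Λ) (prodGroup W G) (wallCone K T S)) :
    HasRPFD M G K := by
  classical
  obtain ⟨P, ⟨s, hs, rfl⟩, hcov, -⟩ := hW
  have hsW : PointedCone.hull ℝ (s : Set (U × W)) ≤ wallCone K T S := IsRatPoly.le_of_cover hcov
  refine exists_fundDomain hS (P₁ := PointedCone.hull ℝ ((s.image Prod.fst : Finset U) : Set U))
    ⟨_, ?_, rfl⟩ ?_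
  · intro u hu
    obtain ⟨x, hx, rfl⟩ := Finset.mem_image.1 (Finset.mem_coe.1 hu)
    exact (hs hx).1
  · apply Subset.antisymm
    · intro u hu
      have h1 : ((u, 0) : U × W) ∈ (wallCone K T S : Set (U × W)) := by
        refine ⟨hu, T.zero_mem, fun p hp => ?_⟩
        rw [map_zero]
        exact H.nonneg p hp u hu
      rw [hcov] at h1
      obtain ⟨φ, ⟨g, hg, e⟩, y, hy, hyx⟩ := mem_iUnion₂.1 h1
      refine mem_iUnion₂.2 ⟨g, hg, y.1, ?_, ?_⟩
      · obtain ⟨c, hc, hyc⟩ := mem_hull_finset.1 hy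
        rw [hyc, Prod.fst_sum]
        refine Submodule.sum_mem _ fun x hx => ?_
        rw [Prod.smul_fst]
        exact PointedCone.smul_mem _ (hc x hx) (Submodule.subset_span
          (Finset.mem_coe.2 (Finset.mem_image_of_mem _ hx)))
      · have h2 := congrArg Prod.fst hyx
        rwa [e] at h2
    · intro u hu
      obtain ⟨g, hg, y, hy, rfl⟩ := mem_iUnion₂.1 hu
      refine hS.map_cone g hg y ((Submodule.span_le.2 fun a ha => ?_ :
        PointedCone.hull ℝ ((s.image Prod.fst : Finset U) : Set U) ≤ K) hy)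
      obtain ⟨x, hx, rfl⟩ := Finset.mem_image.1 (Finset.mem_coe.1 ha)
      exact (hsW (Submodule.subset_span hx)).1

end Pool.Agent.Lib.Pad47bbY
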