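import Pool.Agent.Lib.Pad47bbY.Main
import Pool.Agent.Lib.Pad47bbY.Walls
import Pool.Agent.Lib.Pad47bbM.Van

/-!
Integral walls of bounded multiplicity: the cone generated by the lattice points.
-/

open Set Topology

namespace Pool.Agent.Lib.Pad47bbY

open Pool.Agent.Lib.Pad47bb Pool.Agent.Lib.Pad47bbB Pool.Agent.Lib.Pad47bbV

section general

variable {U W : Type*} [NormedAddCommGroup U] [NormedSpace ℝ U] [FiniteDimensional ℝ U]
  [NormedAddCommGroup W] [NormedSpace ℝ W] [FiniteDimensional ℝ W]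
  {M : Submodule ℤ U} [DiscreteTopology M] [IsZLattice ℝ M]
  {Λ : Submodule ℤ W} [DiscreteTopology Λ] [IsZLattice ℝ Λ]

/-- Interior points are in the cone generated by the lattice points. -/
theorem interior_subset_ratHull (N : PointedCone ℝ U) :
    interior (N : Set U) ⊆ ratHull M N := by
  intro x hx
  obtain ⟨P, ⟨s, hs, rfl⟩, hP, hxP⟩ := exists_ratPoly_cover M (C := N) (Q := {x})
    isCompact_singleton (by rintro _ rfl; exact hx)
  have h1 : (s : Set U) ⊆ (N : Set U) ∩ (M : Set U) := fun a ha =>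
    ⟨intCone_le N (hP (Submodule.subset_span ha)), hs ha⟩
  exact Submodule.span_mono h1 (hxP rfl)

omit [FiniteDimensional ℝ U] [DiscreteTopology M] [IsZLattice ℝ M] [DiscreteTopology Λ]
  [IsZLattice ℝ Λ] in
/-- The closure of the wall cone over the cone generated by the lattice points is in the closed
wall cone. -/
theorem closure_wallCone {N : PointedCone ℝ U} (hN : IsClosed (N : Set U)) {T : PointedCone ℝ W}
    (hT : IsRatPoly Λ T) {S : Set ((U →L[ℝ] ℝ) × (W →L[ℝ] ℝ))} :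
    closure (wallCone (ratHull M N) T S : Set (U × W)) ⊆ (wallCone N T S : Set (U × W)) := by
  have hTc : IsClosed (T : Set W) := by
    obtain ⟨t, -, rfl⟩ := hT
    exact Pool.Agent.Lib.Pad47bbM.isClosed_hull_finset t
  refine closure_minimal (fun x hx => ⟨ratHull_le hx.1, hx.2.1, hx.2.2⟩) ?_
  have h1 : (wallCone N T S : Set (U × W)) = Prod.fst ⁻¹' (N : Set U) ∩
      (Prod.snd ⁻¹' (T : Set W) ∩ ⋂ s ∈ S, {x : U × W | s.2 x.2 ≤ s.1 x.1}) := by
    ext x
    simp only [mem_inter_iff, mem_iInter]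
    rfl
  rw [h1]
  refine (hN.preimage continuous_fst).inter ((hTc.preimage continuous_snd).inter ?_)
  exact isClosed_biInter fun s _ => isClosed_le (s.2.continuous.comp continuous_snd)
    (s.1.continuous.comp continuous_fst)

/-- The wall cone over the cone generated by the lattice points. -/
theorem wallCone_ratHull [Nontrivial U] {N : PointedCone ℝ U} (hN : Good N)
    {G : Subgroup (U ≃ₗ[ℝ] U)} (hA : Acts M N G) (hK : HasRPFD M G (ratHull M N))
    {S : Set ((U →L[ℝ] ℝ) × (W →L[ℝ] ℝ))} (H : IsWalls M Λ N G S) {T : PointedCone ℝ W}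
    (hTr : IsRatPoly Λ T) (hTi : (interior (T : Set W)).Nonempty)
    (hs : ∀ x ∈ wallCone N T S, -x ∈ wallCone N T S → x = 0) :
    HasRPFD (M.prod Λ) (prodGroup W G) (wallCone (ratHull M N) T S) ∧
      wallCone (ratHull M N) T S = ratHull (M.prod Λ) (wallCone N T S) := by
  have hS : Setting M (ratHull M N) G := setting_ratHull hN hA (interior_subset_ratHull N)
  have hcl := closure_wallCone (M := M) (Λ := Λ) hN.closed hTr (S := S)
  have H' : IsWalls M Λ (ratHull M N) G S := H.mono ratHull_le le_rfl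
  have hL : ∀ φ ∈ prodGroup W G, ∀ x ∈ M.prod Λ, φ x ∈ M.prod Λ := by
    rintro φ ⟨g, hg, e⟩ x hx
    rw [e]
    exact ⟨hA.map_lattice g hg _ hx.1, hx.2⟩
  have hR := hasRPFD_wallCone hS hK H' hTr hTi (fun x hx hx' => hs x (hcl hx) (hcl hx')) le_rfl hL
    (prodGroup_map_cone hS.map_cone H')
  refine ⟨hR, le_antisymm ?_ ?_⟩
  · have hAct : Acts (M.prod Λ) (wallCone N T S) (prodGroup W G) :=
      ⟨hL, prodGroup_map_cone hA.map_cone H⟩
    obtain ⟨P, ⟨s, hs, rfl⟩, hcov, -⟩ := hR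
    have hsW := IsRatPoly.le_of_cover hcov
    intro x hx
    have h1 : x ∈ (wallCone (ratHull M N) T S : Set (U × W)) := hx
    rw [hcov] at h1
    obtain ⟨φ, hφ, y, hy, rfl⟩ := mem_iUnion₂.1 h1
    refine ratHull_map hAct hφ ?_
    refine (Submodule.span_mono (fun a ha => ?_) : PointedCone.hull ℝ (s : Set (U × W)) ≤ _) hy
    have h2 := hsW (Submodule.subset_span ha)
    exact ⟨⟨ratHull_le h2.1, h2.2.1, h2.2.2⟩, hs ha⟩
  · refine Submodule.span_le.2 ?_
    rintro x ⟨hx, hxL⟩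
    exact ⟨Submodule.subset_span ⟨hx.1, hxL.1⟩, hx.2.1, hx.2.2⟩

/-- Walls of bounded multiplicity, for the cones generated by the lattice points. -/
theorem hasRPFD_wallCone_ratHull [Nontrivial U] {N : PointedCone ℝ U} (hN : Good N)
    {G : Subgroup (U ≃ₗ[ℝ] U)} (hA : Acts M N G) (hK : HasRPFD M G (ratHull M N))
    {S : Set ((U →L[ℝ] ℝ) × (W →L[ℝ] ℝ))} (H : IsWalls M Λ N G S) {T : PointedCone ℝ W}
    (hTr : IsRatPoly Λ T) (hTi : (interior (T : Set W)).Nonempty)
    (hs : ∀ x ∈ wallCone N T S, -x ∈ wallCone N T S → x = 0)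
    {Γ : Subgroup ((U × W) ≃ₗ[ℝ] (U × W))} (hΓ : prodGroup W G ≤ Γ)
    (hΓA : Acts (M.prod Λ) (wallCone N T S) Γ) :
    HasRPFD (M.prod Λ) Γ (ratHull (M.prod Λ) (wallCone N T S)) := by
  obtain ⟨-, heq⟩ := wallCone_ratHull hN hA hK H hTr hTi hs
  have hS : Setting M (ratHull M N) G := setting_ratHull hN hA (interior_subset_ratHull N)
  have hcl := closure_wallCone (M := M) (Λ := Λ) hN.closed hTr (S := S)
  have H' : IsWalls M Λ (ratHull M N) G S := H.mono ratHull_le le_rfl
  rw [← heq]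
  refine hasRPFD_wallCone hS hK H' hTr hTi (fun x hx hx' => hs x (hcl hx) (hcl hx')) hΓ
    hΓA.map_lattice ?_
  intro φ hφ x hx
  rw [heq] at hx ⊢
  exact ratHull_map hΓA hφ hx

end general

section forms

variable {K : Type*} [RCLike K] {W : Type*} [NormedAddCommGroup W] [NormedSpace ℝ W]
  [FiniteDimensional ℝ W] {Λ : Submodule ℤ W} [DiscreteTopology Λ] [IsZLattice ℝ Λ]

instance (n : ℕ) [NeZero n] : Nontrivial (Herm K n) := by
  refine ⟨⟨0, ofMat 1 Matrix.isHermitian_one, fun h => ?_⟩⟩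
  have h1 : (0 : K) = (1 : Matrix (Fin n) (Fin n) K) 0 0 :=
    congrArg (fun x : Herm K n => mat x 0 0) h
  rw [Matrix.one_apply_eq] at h1
  exact zero_ne_one h1

/-- Walls of bounded multiplicity over the cone of positive semidefinite Hermitian forms. -/
theorem hasRPFD_wallForms {O : Subring K} {ρ : ℝ} (hO : NormEuclid O ρ) (n : ℕ) [NeZero n]
    {G : Subgroup (Herm K n ≃ₗ[ℝ] Herm K n)} (hG : G ≤ glForms O n)
    (hfi : (G.subgroupOf (glForms O n)).FiniteIndex)
    {S : Set ((Herm K n →L[ℝ] ℝ) × (W →L[ℝ] ℝ))} (H : IsWalls (latt O n) Λ (psd K n) G S)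
    {T : PointedCone ℝ W} (hTr : IsRatPoly Λ T) (hTi : (interior (T : Set W)).Nonempty)
    (hs : ∀ x ∈ wallCone (psd K n) T S, -x ∈ wallCone (psd K n) T S → x = 0)
    {Γ : Subgroup ((Herm K n × W) ≃ₗ[ℝ] (Herm K n × W))} (hΓ : prodGroup W G ≤ Γ)
    (hΓA : Acts ((latt O n).prod Λ) (wallCone (psd K n) T S) Γ) :
    HasRPFD ((latt O n).prod Λ) Γ (ratHull ((latt O n).prod Λ) (wallCone (psd K n) T S)) := by
  have := latt_discrete hO n
  have := latt_isZLattice hO n
  have hA : Acts (latt O n) (psd K n) G :=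
    ⟨fun g hg => (acts_glForms hO n).map_lattice g (hG hg),
      fun g hg => (acts_glForms hO n).map_cone g (hG hg)⟩
  have hK : HasRPFD (latt O n) G (ratHull (latt O n) (psd K n)) :=
    (hasRPFD_subgroup_iff hG (setting_forms hO n)).2 ⟨hasRPFD_forms hO n, hfi⟩
  exact hasRPFD_wallCone_ratHull (good_psd n) hA hK H hTr hTi hs hΓ hΓA

end forms

end Pool.Agent.Lib.Pad47bbY
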