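import Pool.Agent.Lib.Pad47bbY.Step
import Pool.Agent.Lib.Pad47bbQ.Closing
import Pool.Agent.Lib.Pad47bbV.Final

/-!
The space of Hermitian forms, the cone of positive semidefinite forms, the lattice of integral
forms and the group of integral changes of coordinates.
-/

open Set Topology Matrix

namespace Pool.Agent.Lib.Pad47bbY

open Pool.Agent.Lib.Pad47bb Pool.Agent.Lib.Pad47bbV

/-- The real vector space of Hermitian matrices. -/
def Herm (K : Type*) [RCLike K] (n : ℕ) : Submodule ℝ (Fin n → Fin n → K) where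
  carrier := {x | ∀ i j, star (x i j) = x j i}
  add_mem' := by
    intro x y hx hy i j
    rw [Pi.add_apply, Pi.add_apply, star_add, hx i j, hy i j]
    rfl
  zero_mem' := by
    intro i j
    exact star_zero K
  smul_mem' := by
    intro r x hx i j
    rw [Pi.smul_apply, Pi.smul_apply, star_smul, hx i j]
    rfl

variable {K : Type*} [RCLike K]

/-- The matrix of a Hermitian form. -/
def mat {n : ℕ} (x : Herm K n) : Matrix (Fin n) (Fin n) K := Matrix.of x.1

theorem mat_apply {n : ℕ} (x : Herm K n) (i j : Fin n) : mat x i j = x.1 i j := rfl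

theorem isHermitian_mat {n : ℕ} (x : Herm K n) : (mat x).IsHermitian := by
  ext i j
  exact x.2 j i

/-- The Hermitian form of a matrix. -/
def ofMat {n : ℕ} (y : Matrix (Fin n) (Fin n) K) (hy : y.IsHermitian) : Herm K n :=
  ⟨fun i j => y i j, fun i j => hy.apply j i⟩

theorem mat_ofMat {n : ℕ} (y : Matrix (Fin n) (Fin n) K) (hy : y.IsHermitian) :
    mat (ofMat y hy) = y := rfl

theorem mat_injective {n : ℕ} {x y : Herm K n} (h : mat x = mat y) : x = y := by
  apply Subtype.ext
  ext i j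
  exact congrFun (congrFun h i) j

theorem mat_add {n : ℕ} (x y : Herm K n) : mat (x + y) = mat x + mat y := rfl

theorem mat_sub {n : ℕ} (x y : Herm K n) : mat (x - y) = mat x - mat y := rfl

theorem mat_neg {n : ℕ} (x : Herm K n) : mat (-x) = -mat x := rfl

theorem mat_smul {n : ℕ} (r : ℝ) (x : Herm K n) : mat (r • x) = (r : K) • mat x := by
  ext i j
  show r • x.1 i j = (r : K) • x.1 i j
  rw [RCLike.real_smul_eq_coe_mul]
  rfl

theorem qf_add {n : ℕ} (x y : Matrix (Fin n) (Fin n) K) (v : Fin n → K) :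
    qf (x + y) v = qf x v + qf y v := by
  unfold qf
  rw [add_mulVec, dotProduct_add, map_add]

theorem qf_neg {n : ℕ} (x : Matrix (Fin n) (Fin n) K) (v : Fin n → K) :
    qf (-x) v = -qf x v := by
  unfold qf
  rw [neg_mulVec, dotProduct_neg, map_neg]

theorem qf_sub {n : ℕ} (x y : Matrix (Fin n) (Fin n) K) (v : Fin n → K) :
    qf (x - y) v = qf x v - qf y v := by
  rw [sub_eq_add_neg, qf_add, qf_neg, sub_eq_add_neg]

theorem qf_rsmul {n : ℕ} (r : ℝ) (x : Matrix (Fin n) (Fin n) K) (v : Fin n → K) :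
    qf ((r : K) • x) v = r * qf x v := by
  unfold qf
  rw [smul_mulVec, dotProduct_smul, smul_eq_mul, RCLike.re_ofReal_mul]

theorem qf_zero {n : ℕ} (v : Fin n → K) : qf (0 : Matrix (Fin n) (Fin n) K) v = 0 := by
  unfold qf
  rw [zero_mulVec, dotProduct_zero, map_zero]

theorem continuous_qf_mat {n : ℕ} (v : Fin n → K) :
    Continuous fun x : Herm K n => qf (mat x) v := by
  have h1 : ∀ x : Herm K n, qf (mat x) v =
      RCLike.re (∑ i, star (v i) * ∑ j, x.1 i j * v j) := fun x => rfl
  simp only [h1]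
  refine RCLike.continuous_re.comp ?_
  refine continuous_finsetSum _ fun i _ => ?_
  refine continuous_const.mul ?_
  refine continuous_finsetSum _ fun j _ => ?_
  refine Continuous.mul ?_ continuous_const
  exact (continuous_apply j).comp ((continuous_apply i).comp continuous_subtype_val)

/-- The cone of positive semidefinite Hermitian forms. -/
def psd (K : Type*) [RCLike K] (n : ℕ) : PointedCone ℝ (Herm K n) where
  carrier := {x | ∀ v, 0 ≤ qf (mat x) v}
  add_mem' := by
    intro x y hx hy v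
    rw [mat_add, qf_add]
    exact add_nonneg (hx v) (hy v)
  zero_mem' := by
    intro v
    exact (qf_zero v).ge
  smul_mem' := by
    intro c x hx v
    have h1 : qf (mat (c • x)) v = (c : ℝ) * qf (mat x) v := by
      rw [← qf_rsmul, ← mat_smul]
      rfl
    rw [h1]
    exact mul_nonneg c.2 (hx v)

theorem mem_psd {n : ℕ} {x : Herm K n} : x ∈ psd K n ↔ ∀ v, 0 ≤ qf (mat x) v := Iff.rfl

theorem abs_qf_le {n : ℕ} (x : Herm K n) (v : Fin n → K) :
    |qf (mat x) v| ≤ (n : ℝ) * (n * (‖x‖ * ‖v‖ ^ 2)) := by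
  have h1 : qf (mat x) v = RCLike.re (∑ i, star (v i) * ∑ j, x.1 i j * v j) := rfl
  rw [h1]
  refine (RCLike.abs_re_le_norm _).trans ?_
  refine (norm_sum_le _ _).trans ?_
  have h2 : ∀ i ∈ (Finset.univ : Finset (Fin n)), ‖star (v i) * ∑ j, x.1 i j * v j‖ ≤
      n * (‖x‖ * ‖v‖ ^ 2) := by
    intro i _
    rw [norm_mul, norm_star]
    have h3 : ‖∑ j, x.1 i j * v j‖ ≤ n * (‖x‖ * ‖v‖) := by
      refine (norm_sum_le _ _).trans ?_
      have h4 : ∀ j ∈ (Finset.univ : Finset (Fin n)), ‖x.1 i j * v j‖ ≤ ‖x‖ * ‖v‖ := by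
        intro j _
        rw [norm_mul]
        refine mul_le_mul ?_ (norm_le_pi_norm v j) (norm_nonneg _) (norm_nonneg _)
        exact (norm_le_pi_norm (x.1 i) j).trans (norm_le_pi_norm x.1 i)
      refine (Finset.sum_le_card_nsmul _ _ _ h4).trans ?_
      rw [Finset.card_univ, Fintype.card_fin, nsmul_eq_mul]
    have h5 : ‖v i‖ ≤ ‖v‖ := norm_le_pi_norm v i
    calc ‖v i‖ * ‖∑ j, x.1 i j * v j‖ ≤ ‖v‖ * (n * (‖x‖ * ‖v‖)) :=
          mul_le_mul h5 h3 (norm_nonneg _) (norm_nonneg _)
      _ = n * (‖x‖ * ‖v‖ ^ 2) := by ring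
  refine (Finset.sum_le_card_nsmul _ _ _ h2).trans ?_
  rw [Finset.card_univ, Fintype.card_fin, nsmul_eq_mul]

/-- Positive definite forms are interior points. -/
theorem mem_interior_of_isPD {n : ℕ} {x : Herm K n} (hx : IsPD (mat x)) :
    x ∈ interior (psd K n : Set (Herm K n)) := by
  obtain ⟨δ, hδ, hb⟩ := hx.exists_bound
  rw [mem_interior_iff_mem_nhds, Metric.mem_nhds_iff]
  refine ⟨δ / (n * n + 1), by positivity, fun y hy => ?_⟩
  rw [mem_ball_iff_norm] at hy
  intro v
  have h1 := abs_qf_le (y - x) v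
  rw [mat_sub, qf_sub] at h1
  have h2 := hb v
  have h3 := (abs_le.1 h1).1
  have h4 : (n : ℝ) * (n * (‖y - x‖ * ‖v‖ ^ 2)) ≤ δ * ‖v‖ ^ 2 := by
    have h5 : (n : ℝ) * n * ‖y - x‖ ≤ δ := by
      rw [lt_div_iff₀ (by positivity)] at hy
      nlinarith [norm_nonneg (y - x)]
    calc (n : ℝ) * (n * (‖y - x‖ * ‖v‖ ^ 2)) = (n : ℝ) * n * ‖y - x‖ * ‖v‖ ^ 2 := by ring
      _ ≤ δ * ‖v‖ ^ 2 := mul_le_mul_of_nonneg_right h5 (sq_nonneg _)
  linarith

theorem qf_one {n : ℕ} (v : Fin n → K) :
    qf (1 : Matrix (Fin n) (Fin n) K) v = ∑ i, ‖v i‖ ^ 2 := by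
  unfold qf
  rw [one_mulVec]
  show RCLike.re (∑ i, star (v i) * v i) = _
  rw [map_sum]
  refine Finset.sum_congr rfl fun i _ => ?_
  rw [RCLike.star_def, RCLike.conj_mul, ← RCLike.ofReal_pow, RCLike.ofReal_re]

theorem isPD_one (n : ℕ) : IsPD (1 : Matrix (Fin n) (Fin n) K) := by
  intro v hv
  rw [qf_one]
  obtain ⟨i, hi⟩ := Function.ne_iff.1 hv
  refine Finset.sum_pos' (fun j _ => sq_nonneg _) ⟨i, Finset.mem_univ i, ?_⟩
  have : 0 < ‖v i‖ := norm_pos_iff.2 hi
  positivity

/-- Interior points are positive definite. -/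
theorem isPD_of_mem_interior {n : ℕ} {x : Herm K n}
    (hx : x ∈ interior (psd K n : Set (Herm K n))) : IsPD (mat x) := by
  intro v hv
  let e : Herm K n := ofMat 1 isHermitian_one
  have hc : Continuous fun t : ℝ => x - t • e := by fun_prop
  have h1 : (fun t : ℝ => x - t • e) ⁻¹' interior (psd K n : Set (Herm K n)) ∈ 𝓝 (0 : ℝ) := by
    refine hc.continuousAt.preimage_mem_nhds ?_
    rw [zero_smul, sub_zero]
    exact isOpen_interior.mem_nhds hx
  obtain ⟨ε, hε, hball⟩ := Metric.mem_nhds_iff.1 h1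
  have h2 : x - (ε / 2) • e ∈ psd K n := by
    refine interior_subset (hball ?_)
    rw [mem_ball_zero_iff, Real.norm_eq_abs, abs_of_pos (by positivity)]
    linarith
  have h3 := h2 v
  rw [mat_sub, qf_sub, mat_smul, qf_rsmul, mat_ofMat] at h3
  have h4 := isPD_one (K := K) n v hv
  have h5 : 0 < ε / 2 * qf 1 v := by positivity
  linarith

theorem good_psd (n : ℕ) : Good (psd K n) where
  closed := by
    have h1 : (psd K n : Set (Herm K n)) = ⋂ v, {x | 0 ≤ qf (mat x) v} := by
      ext x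
      simp only [mem_iInter]
      rfl
    rw [h1]
    exact isClosed_iInter fun v => isClosed_le continuous_const (continuous_qf_mat v)
  salient := by
    intro x hx hx'
    have h0 : ∀ v, qf (mat x) v = 0 := by
      intro v
      have h1 := hx v
      have h2 := hx' v
      rw [mat_neg, qf_neg] at h2
      linarith
    apply mat_injective
    ext i j
    set v : Fin n → K := Pi.single j 1
    set w : Fin n → K := Pi.single i (mat x i j)
    have h1 : star w ⬝ᵥ (mat x *ᵥ v) = ((‖mat x i j‖ ^ 2 : ℝ) : K) := by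
      rw [mulVec_single_one]
      have e1 : star w = Pi.single i (star (mat x i j)) := by
        ext k
        by_cases hk : k = i
        · subst hk
          simp [w]
        · simp [w, hk]
      rw [e1, single_dotProduct, RCLike.star_def]
      show (starRingEnd K) (mat x i j) * mat x i j = _
      rw [RCLike.conj_mul]
      push_cast
      rfl
    have h2 : star v ⬝ᵥ (mat x *ᵥ w) = star (star w ⬝ᵥ (mat x *ᵥ v)) := by
      rw [star_dotProduct, star_mulVec, (isHermitian_mat x).eq, ← dotProduct_mulVec]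
    have h3 := h0 (v + w)
    unfold qf at h3
    rw [star_add, mulVec_add, add_dotProduct, dotProduct_add, dotProduct_add, map_add, map_add,
      map_add] at h3
    have h4 := h0 v
    have h5 := h0 w
    unfold qf at h4 h5
    rw [h4, h5, h2, h1] at h3
    simp only [RCLike.star_def, RCLike.conj_ofReal, RCLike.ofReal_re] at h3
    have h6 : ‖mat x i j‖ ^ 2 = 0 := by linarith
    rw [mat_apply] at h6 ⊢
    show x.1 i j = 0
    exact norm_eq_zero.1 (pow_eq_zero_iff (two_ne_zero) |>.1 h6)
  interior_nonempty := ⟨ofMat 1 isHermitian_one, mem_interior_of_isPD (isPD_one n)⟩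

end Pool.Agent.Lib.Pad47bbY
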