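import Pool.Agent.Lib.Pad47bbY.Final
import Pool.Agent.Lib.Pad47bbX.Red

/-!
Cones with bounded walls along a rational subspace: a fundamental domain can be found modulo the
subspace.
-/

open Set Topology

namespace Pool.Agent.Lib.Pad47bbY

open Pool.Agent.Lib.Pad47bb Pool.Agent.Lib.Pad47bbB Pool.Agent.Lib.Pad47bbV
  Pool.Agent.Lib.Pad47bbX

variable {V : Type*} [NormedAddCommGroup V] [NormedSpace ℝ V] [FiniteDimensional ℝ V]
  {L : Submodule ℤ V} [DiscreteTopology L] [IsZLattice ℝ L]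
  {U : Type*} [NormedAddCommGroup U] [NormedSpace ℝ U] [FiniteDimensional ℝ U]
  {M : Submodule ℤ U} [DiscreteTopology M] [IsZLattice ℝ M]

omit [FiniteDimensional ℝ V] [FiniteDimensional ℝ U] in
/-- Every automorphism preserving the kernel induces an automorphism of the quotient. -/
theorem exists_induced {π : V →ₗ[ℝ] U} (hsurj : Function.Surjective π)
    {Γ : Subgroup (V ≃ₗ[ℝ] V)} (hpres : ∀ g ∈ Γ, ∀ x, π x = 0 → π (g x) = 0) :
    ∀ g ∈ Γ, ∃ h ∈ induced π Γ, ∀ x, h (π x) = π (g x) := by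
  intro g hg
  have hinv : ∀ g ∈ Γ, ∀ x y, π x = π y → π (g x) = π (g y) := by
    intro g hg x y hxy
    have h3 := hpres g hg (x - y) (by rw [map_sub, hxy, sub_self])
    rw [map_sub, map_sub, sub_eq_zero] at h3
    exact h3
  choose σ hσ using hsurj
  have hg' := inv_mem hg
  let h : U ≃ₗ[ℝ] U :=
    { toFun := fun u => π (g (σ u))
      map_add' := fun u v => by
        rw [← map_add, ← map_add]
        exact hinv g hg _ _ (by rw [hσ, map_add, hσ, hσ])
      map_smul' := fun c u => by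
        rw [RingHom.id_apply, ← map_smul, ← map_smul]
        exact hinv g hg _ _ (by rw [hσ, map_smul, hσ])
      invFun := fun u => π (g⁻¹ (σ u))
      left_inv := fun u => by
        have h1 := hinv g⁻¹ hg' (σ (π (g (σ u)))) (g (σ u)) (hσ _)
        have h2 : g⁻¹ (g (σ u)) = σ u := g.symm_apply_apply _
        rw [h2, hσ] at h1
        exact h1
      right_inv := fun u => by
        have h1 := hinv g hg (σ (π (g⁻¹ (σ u)))) (g⁻¹ (σ u)) (hσ _)
        have h2 : g (g⁻¹ (σ u)) = σ u := g.apply_symm_apply _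
        rw [h2, hσ] at h1
        exact h1 }
  have hh : ∀ x, h (π x) = π (g x) := fun x => hinv g hg _ _ (hσ _)
  exact ⟨h, ⟨g, hg, hh⟩, hh⟩

omit [DiscreteTopology M] [IsZLattice ℝ M] in
/-- The image cone with its lattice and its group. -/
theorem setting_image {N : PointedCone ℝ V} (hN : Good N) {Γ : Subgroup (V ≃ₗ[ℝ] V)}
    (hA : Acts L N Γ) {π : V →ₗ[ℝ] U} (hsurj : Function.Surjective π)
    (hM : ∀ u, u ∈ M ↔ ∃ x ∈ L, π x = u) {K' : PointedCone ℝ U}
    (hK' : ∀ u, u ∈ K' ↔ ∃ x ∈ ratHull L N, π x = u)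
    (hs : ∀ u ∈ closure (K' : Set U), -u ∈ closure (K' : Set U) → u = 0) :
    Setting M K' (induced π Γ) := by
  refine ⟨hs, ?_, ?_, ?_⟩
  · obtain ⟨e, he⟩ := hN.interior_nonempty
    refine ⟨π e, ?_⟩
    rw [mem_interior]
    refine ⟨π '' interior (N : Set V), ?_, ?_, ⟨e, he, rfl⟩⟩
    · rintro _ ⟨x, hx, rfl⟩
      exact (hK' _).2 ⟨x, interior_subset_ratHull N hx, rfl⟩
    · exact π.isOpenMap_of_finiteDimensional hsurj _ isOpen_interior
  · rintro h ⟨g, hg, e⟩ u hu
    obtain ⟨x, hx, rfl⟩ := (hM u).1 hu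
    rw [e]
    exact (hM _).2 ⟨g x, hA.map_lattice g hg x hx, rfl⟩
  · rintro h ⟨g, hg, e⟩ u hu
    obtain ⟨x, hx, rfl⟩ := (hK' u).1 hu
    rw [e]
    exact (hK' _).2 ⟨g x, ratHull_map hA hg hx, rfl⟩

/-- Bounded walls along a rational subspace: the fundamental domain can be found modulo the
subspace. -/
theorem hasRPFD_iff_image [Nontrivial V] {N : PointedCone ℝ V} (hN : Good N) {J : Finset V}
    {Ξ : Set (V →L[ℝ] ℝ)} (D : BdCone L N J Ξ) {Γ : Subgroup (V ≃ₗ[ℝ] V)} (hA : Acts L N Γ)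
    {π : V →ₗ[ℝ] U} (hsurj : Function.Surjective π)
    (hker : ∀ x, π x = 0 ↔ x ∈ Submodule.span ℝ (J : Set V))
    (hJ : ∀ g ∈ Γ, ∀ p ∈ J, g p ∈ Submodule.span ℝ (J : Set V))
    (hM : ∀ u, u ∈ M ↔ ∃ x ∈ L, π x = u) {K' : PointedCone ℝ U}
    (hK' : ∀ u, u ∈ K' ↔ ∃ x ∈ ratHull L N, π x = u)
    (hs : ∀ u ∈ closure (K' : Set U), -u ∈ closure (K' : Set U) → u = 0)
    {G' : Subgroup (U ≃ₗ[ℝ] U)} (hG' : induced π Γ ≤ G')
    (hG'M : ∀ g ∈ G', ∀ u ∈ M, g u ∈ M) (hG'K : ∀ g ∈ G', ∀ u ∈ K', g u ∈ K')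
    {K : PointedCone ℝ V} (hK1 : interior (N : Set V) ⊆ K) (hK2 : K ≤ N) :
    HasRPFD L Γ K ↔ K = ratHull L N ∧
      HasRPFD M G' K' ∧ ((induced π Γ).subgroupOf G').FiniteIndex := by
  classical
  have hSI := setting_image hN hA hsurj hM hK' hs
  have hS' : Setting M K' G' := ⟨hs, hSI.interior_nonempty, hG'M, hG'K⟩
  rw [← hasRPFD_subgroup_iff hG' hS']
  have hpres : ∀ g ∈ Γ, ∀ x, π x = 0 → π (g x) = 0 := by
    intro g hg x hx
    rw [hker] at hx ⊢
    induction hx using Submodule.span_induction with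
    | mem x hx => exact hJ g hg x hx
    | zero => rw [map_zero]; exact Submodule.zero_mem _
    | add x y _ _ hx hy => rw [map_add]; exact Submodule.add_mem _ hx hy
    | smul c x _ hx => rw [map_smul]; exact Submodule.smul_mem _ c hx
  have hind := exists_induced hsurj hpres
  have hSV : Setting L (ratHull L N) Γ := setting_ratHull hN hA (interior_subset_ratHull N)
  rw [hasRPFD_iff_mod hN D hA hK1 hK2]
  refine and_congr_right fun _ => ?_
  constructor
  · rintro ⟨Y, hY, hcov⟩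
    -- all points of the generated cone are covered
    have hYr : (Y : Set V) ⊆ ratHull L N := fun y hy => Submodule.subset_span
      ⟨(hY y hy).2, (hY y hy).1⟩
    have hR : HasRPFD L Γ (ratHull L N) := (hasRPFD_iff_mod hN D hA
      (interior_subset_ratHull N) ratHull_le).2 ⟨rfl, Y, hY, hcov⟩
    obtain ⟨P, ⟨s, hsL, rfl⟩, hcovP, -⟩ := hR
    have hsK := IsRatPoly.le_of_cover hcovP
    refine exists_fundDomain hSI
      (P₁ := PointedCone.hull ℝ ((s.image π : Finset U) : Set U)) ⟨_, ?_, rfl⟩ ?_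
    · intro u hu
      obtain ⟨a, ha, rfl⟩ := Finset.mem_image.1 (Finset.mem_coe.1 hu)
      exact (hM _).2 ⟨a, hsL ha, rfl⟩
    · apply Subset.antisymm
      · intro u hu
        obtain ⟨x, hx, rfl⟩ := (hK' u).1 hu
        have hx' : x ∈ (ratHull L N : Set V) := hx
        rw [hcovP] at hx'
        obtain ⟨g, hg, y, hy, rfl⟩ := mem_iUnion₂.1 hx'
        obtain ⟨h, hh, e⟩ := hind g hg
        exact mem_iUnion₂.2 ⟨h, hh, π y, (map_hull π s).2 ⟨y, hy, rfl⟩, e y⟩
      · intro u hu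
        obtain ⟨h, hh, v, hv, rfl⟩ := mem_iUnion₂.1 hu
        obtain ⟨y, hy, rfl⟩ := (map_hull π s).1 hv
        exact hSI.map_cone h hh _ ((hK' _).2 ⟨y, hsK hy, rfl⟩)
  · rintro ⟨P, ⟨s, hsM, rfl⟩, hcov, -⟩
    have hsK := IsRatPoly.le_of_cover hcov
    have hlift : ∀ u ∈ s, ∃ t : Finset V, (∀ y ∈ t, y ∈ L ∧ y ∈ N) ∧
        ∃ x ∈ PointedCone.hull ℝ (t : Set V), π x = u := by
      intro u hu
      obtain ⟨x, hx, hxu⟩ := (hK' u).1 (hsK (Submodule.subset_span hu))
      obtain ⟨t, ht, hxt⟩ := Submodule.mem_span_finite_of_mem_span hx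
      exact ⟨t, fun y hy => ⟨(ht hy).2, (ht hy).1⟩, x, hxt, hxu⟩
    choose! t ht x hx hxu using hlift
    refine ⟨s.biUnion t, ?_, ?_⟩
    · intro y hy
      obtain ⟨u, hu, hyu⟩ := Finset.mem_biUnion.1 hy
      exact ht u hu y hyu
    · intro z hz
      have h1 : π z ∈ (K' : Set U) := (hK' _).2 ⟨z, interior_subset_ratHull N hz, rfl⟩
      rw [hcov] at h1
      obtain ⟨h, hh, v, hv, hvz⟩ := mem_iUnion₂.1 h1
      obtain ⟨g, hg, e⟩ := mem_induced.1 hh
      obtain ⟨c, hc, hvc⟩ := mem_hull_finset.1 hv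
      refine ⟨g⁻¹, inv_mem hg, ∑ u ∈ s, c u • x u, ?_, ?_⟩
      · refine Submodule.sum_mem _ fun u hu => ?_
        refine PointedCone.smul_mem _ (hc u hu) ?_
        refine Submodule.span_mono ?_ (hx u hu)
        exact Finset.coe_subset.2 (Finset.subset_biUnion_of_mem t hu)
      · rw [← hker, map_sub, sub_eq_zero]
        have h2 : π (∑ u ∈ s, c u • x u) = v := by
          rw [map_sum, hvc]
          refine Finset.sum_congr rfl fun u hu => ?_
          rw [map_smul, hxu u hu]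
        rw [h2]
        obtain ⟨y, hy⟩ := hsurj v
        have h3 : π (g y) = π z := by rw [← e, hy]; exact hvz
        have h4 := hpres g⁻¹ (inv_mem hg) (g y - z) (by rw [map_sub, h3, sub_self])
        rw [map_sub, map_sub, sub_eq_zero] at h4
        rw [← h4, ← hy]
        exact congrArg π (g.symm_apply_apply y)

end Pool.Agent.Lib.Pad47bbY
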