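import Pool.Agent.Lib.Pad47bbY.Fibred
import Pool.Agent.Lib.Pad47bbY.Image

/-!
Two characterisations by bounded walls: modulo a rational subspace, and over the cone of positive
semidefinite Hermitian forms.
-/

open Set Topology

namespace Pool.Agent.Lib.Pad47bbY

open Pool.Agent.Lib.Pad47bb Pool.Agent.Lib.Pad47bbB Pool.Agent.Lib.Pad47bbV
  Pool.Agent.Lib.Pad47bbX

section modulo

variable {V : Type*} [NormedAddCommGroup V] [NormedSpace ℝ V] [FiniteDimensional ℝ V]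
  {L : Submodule ℤ V} [DiscreteTopology L] [IsZLattice ℝ L]

/-- `N` has bounded walls along the finite set `J` of lattice points: `N` is cut out by linear
functionals which are nonnegative on `N` and vanish on `J`, and by linear functionals which are
nonnegative on `N`, integral on `L` and bounded on `J`. -/
def BoundedAlong {V : Type*} [NormedAddCommGroup V] [NormedSpace ℝ V] (L : Submodule ℤ V)
    (N : PointedCone ℝ V) (J : Finset V) : Prop :=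
  ∃ B : ℝ, ∀ x : V,
    (∀ φ : V →L[ℝ] ℝ, (∀ y ∈ N, 0 ≤ φ y) →
      ((∀ p ∈ J, φ p = 0) ∨ ((∀ y ∈ L, ∃ k : ℤ, φ y = k) ∧ ∀ p ∈ J, |φ p| ≤ B)) → 0 ≤ φ x) →
    x ∈ N

omit [FiniteDimensional ℝ V] [DiscreteTopology L] [IsZLattice ℝ L] in
theorem boundedAlong_iff {N : PointedCone ℝ V} {J : Finset V} (hJ : ∀ p ∈ J, p ∈ L) :
    BoundedAlong L N J ↔ ∃ Ξ, BdCone L N J Ξ := by
  constructor
  · rintro ⟨B, hB⟩
    refine ⟨{φ | (∀ y ∈ N, 0 ≤ φ y) ∧ (∀ y ∈ L, ∃ k : ℤ, φ y = k) ∧ ∀ p ∈ J, |φ p| ≤ B}, hJ,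
      fun ξ hξ => hξ.2.1, fun ξ hξ => hξ.1, ⟨B, fun ξ hξ => hξ.2.2⟩, fun x h1 h2 => hB x ?_⟩
    rintro φ hφ (h | h)
    · exact h1 φ hφ h
    · exact h2 φ ⟨hφ, h⟩
  · rintro ⟨Ξ, D⟩
    obtain ⟨B, hB⟩ := D.bounded
    refine ⟨B, fun x hx => D.mem x (fun φ hφ h => hx φ hφ (Or.inl h)) fun ξ hξ => ?_⟩
    exact hx ξ (D.nonneg ξ hξ) (Or.inr ⟨D.integral ξ hξ, hB ξ hξ⟩)

/-- Bounded walls are necessary. -/
theorem boundedAlong_of_hasRPFD {N : PointedCone ℝ V} (hN : Good N)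
    {Γ : Subgroup (V ≃ₗ[ℝ] V)} (hA : Acts L N Γ) {J : Finset V}
    (hperm : ∀ g ∈ Γ, ∀ p ∈ J, g p ∈ J) {K : PointedCone ℝ V}
    (hK1 : interior (N : Set V) ⊆ K) (hK2 : K ≤ N) (hR : HasRPFD L Γ K) :
    BoundedAlong L N J := by
  classical
  obtain ⟨P, ⟨s, hs, rfl⟩, hcov, -⟩ := hR
  have hsK := IsRatPoly.le_of_cover hcov
  obtain ⟨Y, hY, hcut⟩ := exists_finite_walls hN hA hs
    (fun a ha => hK2 (hsK (Submodule.subset_span ha))) (fun x hx => by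
      have h1 : x ∈ (K : Set V) := hK1 hx
      rw [hcov] at h1
      obtain ⟨g, hg, y, hy, hyx⟩ := mem_iUnion₂.1 h1
      exact ⟨g, hg, y, hy, hyx⟩)
  refine ⟨∑ ξ ∈ Y, ∑ p ∈ J, |ξ p|, fun x hx => hcut x fun g hg ξ hξ => ?_⟩
  refine hx (ξ.comp (LinearMap.toContinuousLinearMap (g : V →ₗ[ℝ] V)))
    (fun y hy => (hY ξ hξ).2 _ (hA.map_cone g hg y hy)) (Or.inr ⟨fun y hy =>
      (hY ξ hξ).1 _ (hA.map_lattice g hg y hy), fun p hp => ?_⟩)
  show |ξ (g p)| ≤ _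
  calc |ξ (g p)| ≤ ∑ p ∈ J, |ξ p| :=
        Finset.single_le_sum (f := fun p => |ξ p|) (fun q _ => abs_nonneg _) (hperm g hg p hp)
    _ ≤ ∑ ξ ∈ Y, ∑ p ∈ J, |ξ p| :=
        Finset.single_le_sum (f := fun ξ : V →L[ℝ] ℝ => ∑ p ∈ J, |ξ p|)
          (fun ξ _ => Finset.sum_nonneg fun q _ => abs_nonneg _) hξ

variable {U : Type*} [NormedAddCommGroup U] [NormedSpace ℝ U] [FiniteDimensional ℝ U]
  {M : Submodule ℤ U} [DiscreteTopology M] [IsZLattice ℝ M]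

/-- Fundamental domains modulo a rational subspace. -/
theorem hasRPFD_iff_modulo [Nontrivial V] {N : PointedCone ℝ V} (hN : Good N) {J : Finset V}
    (hJL : ∀ p ∈ J, p ∈ L) {Γ : Subgroup (V ≃ₗ[ℝ] V)} (hA : Acts L N Γ)
    {π : V →ₗ[ℝ] U} (hsurj : Function.Surjective π)
    (hker : ∀ x, π x = 0 ↔ x ∈ Submodule.span ℝ (J : Set V))
    (hperm : ∀ g ∈ Γ, ∀ p ∈ J, g p ∈ J)
    (hM : ∀ u, u ∈ M ↔ ∃ x ∈ L, π x = u) {K' : PointedCone ℝ U}
    (hK' : ∀ u, u ∈ K' ↔ ∃ x ∈ ratHull L N, π x = u)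
    (hs : ∀ u ∈ closure (K' : Set U), -u ∈ closure (K' : Set U) → u = 0)
    {G' : Subgroup (U ≃ₗ[ℝ] U)} (hG' : induced π Γ ≤ G')
    (hG'M : ∀ g ∈ G', ∀ u ∈ M, g u ∈ M) (hG'K : ∀ g ∈ G', ∀ u ∈ K', g u ∈ K')
    {K : PointedCone ℝ V} (hK1 : interior (N : Set V) ⊆ K) (hK2 : K ≤ N) :
    HasRPFD L Γ K ↔ K = ratHull L N ∧ BoundedAlong L N J ∧
      HasRPFD M G' K' ∧ ((induced π Γ).subgroupOf G').FiniteIndex := by
  constructor
  · intro h
    have hb := boundedAlong_of_hasRPFD hN hA hperm hK1 hK2 h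
    obtain ⟨Ξ, D⟩ := (boundedAlong_iff hJL).1 hb
    obtain ⟨h1, h2⟩ := (hasRPFD_iff_image hN D hA hsurj hker
      (fun g hg p hp => Submodule.subset_span (hperm g hg p hp)) hM hK' hs hG' hG'M hG'K
      hK1 hK2).1 h
    exact ⟨h1, hb, h2⟩
  · rintro ⟨h1, hb, h2⟩
    obtain ⟨Ξ, D⟩ := (boundedAlong_iff hJL).1 hb
    exact (hasRPFD_iff_image hN D hA hsurj hker
      (fun g hg p hp => Submodule.subset_span (hperm g hg p hp)) hM hK' hs hG' hG'M hG'K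
      hK1 hK2).2 ⟨h1, h2⟩

end modulo

section forms

variable {K : Type*} [RCLike K] {W : Type*} [NormedAddCommGroup W] [NormedSpace ℝ W]
  [FiniteDimensional ℝ W] {Λ : Submodule ℤ W} [DiscreteTopology Λ] [IsZLattice ℝ Λ]

/-- Closed cones fibred over the cone of positive semidefinite Hermitian forms. -/
theorem hasRPFD_forms_iff {O : Subring K} {ρ : ℝ} (hO : NormEuclid O ρ) (n : ℕ) [NeZero n]
    {G : Subgroup (Herm K n ≃ₗ[ℝ] Herm K n)} (hG : G ≤ glForms O n)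
    (hfi : (G.subgroupOf (glForms O n)).FiniteIndex)
    {C : PointedCone ℝ (Herm K n × W)} (hC : Good C)
    (hC1 : ∀ x ∈ psd K n, ((x, 0) : Herm K n × W) ∈ C) (hC2 : ∀ p ∈ C, p.1 ∈ psd K n)
    {Γ : Subgroup ((Herm K n × W) ≃ₗ[ℝ] (Herm K n × W))} (hΓ : prodGroup W G ≤ Γ)
    (hΓfi : ((prodGroup W G).subgroupOf Γ).FiniteIndex)
    (hΓA : Acts ((latt O n).prod Λ) C Γ) :
    HasRPFD ((latt O n).prod Λ) Γ (ratHull ((latt O n).prod Λ) C) ↔
      BoundedWalls (latt O n) Λ (psd K n) G C := by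
  have := latt_discrete hO n
  have := latt_isZLattice hO n
  have hA : Acts (latt O n) (psd K n) G :=
    ⟨fun g hg => (acts_glForms hO n).map_lattice g (hG hg),
      fun g hg => (acts_glForms hO n).map_cone g (hG hg)⟩
  have hK : HasRPFD (latt O n) G (ratHull (latt O n) (psd K n)) :=
    (hasRPFD_subgroup_iff hG (setting_forms hO n)).2 ⟨hasRPFD_forms hO n, hfi⟩
  exact hasRPFD_fibred_iff (good_psd n) hA hK hC hC1 hC2 hΓ hΓfi hΓA

end forms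

end Pool.Agent.Lib.Pad47bbY
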