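import Pool.Agent.Lib.Pad47bb.Basic

/-!
A functional whose kernel is spanned by lattice points is, up to a factor, integral.
-/

open Set Topology

namespace Pool.Agent.Lib.Pad47bbY

open Pool.Agent.Lib.Pad47bb

/-- An integral matrix with a nonzero real vector in its kernel has a nonzero integral vector in its
kernel. -/
theorem exists_int_kernel {σ ι : Type*} [Fintype σ] [Fintype ι] (n : σ → ι → ℤ) (w : ι → ℝ)
    (hw : w ≠ 0) (hn : ∀ a, ∑ i, (n a i : ℝ) * w i = 0) :
    ∃ k : ι → ℤ, k ≠ 0 ∧ ∀ a, ∑ i, n a i * k i = 0 := by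
  classical
  let A : Matrix σ ι ℚ := fun a i => (n a i : ℚ)
  have hninj : ¬ Function.Injective A.mulVecLin := by
    intro hinj
    obtain ⟨g, hg⟩ := LinearMap.exists_leftInverse_of_injective A.mulVecLin
      (LinearMap.ker_eq_bot.2 hinj)
    let B : Matrix ι σ ℚ := LinearMap.toMatrix' g
    have hBA : B * A = 1 := by
      have h1 := congrArg LinearMap.toMatrix' hg
      rw [LinearMap.toMatrix'_comp, LinearMap.toMatrix'_id] at h1
      have h2 : LinearMap.toMatrix' A.mulVecLin = A := LinearMap.toMatrix'_toLin' A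
      rw [h2] at h1
      exact h1
    apply hw
    have h3 : (B.map (algebraMap ℚ ℝ)) * (A.map (algebraMap ℚ ℝ)) = 1 := by
      rw [← Matrix.map_mul, hBA, Matrix.map_one _ (map_zero _) (map_one _)]
    have h4 : (A.map (algebraMap ℚ ℝ)).mulVec w = 0 := by
      ext a
      have h5 : (A.map (algebraMap ℚ ℝ)).mulVec w a = ∑ i, (n a i : ℝ) * w i := by
        show ∑ i, (algebraMap ℚ ℝ) (n a i : ℚ) * w i = _
        refine Finset.sum_congr rfl fun i _ => ?_
        simp
      rw [h5, hn a]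
      rfl
    calc w = (1 : Matrix ι ι ℝ).mulVec w := (Matrix.one_mulVec w).symm
      _ = 0 := by rw [← h3, ← Matrix.mulVec_mulVec, h4, Matrix.mulVec_zero]
  have h5 : ∃ q : ι → ℚ, q ≠ 0 ∧ A.mulVecLin q = 0 := by
    by_contra h
    push Not at h
    apply hninj
    rw [← LinearMap.ker_eq_bot, LinearMap.ker_eq_bot']
    intro q hq
    by_contra h0
    exact h q h0 hq
  obtain ⟨q, hq0, hq⟩ := h5
  obtain ⟨N, hN, hNq⟩ := exists_common_denom q
  choose k hk using hNq
  have hNr : (N : ℝ) ≠ 0 := by exact_mod_cast hN.ne'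
  refine ⟨k, ?_, ?_⟩
  · intro h0
    apply hq0
    ext i
    have h1 := hk i
    rw [h0, Pi.zero_apply, Int.cast_zero] at h1
    rcases mul_eq_zero.1 h1 with h | h
    · exact absurd h hNr
    · rw [Pi.zero_apply]
      exact_mod_cast h
  · intro a
    have h1 : ∑ i, (n a i : ℚ) * q i = 0 := congrFun hq a
    have h2 : ((∑ i, n a i * k i : ℤ) : ℝ) = N * ((∑ i, (n a i : ℚ) * q i : ℚ) : ℝ) := by
      push_cast
      rw [Finset.mul_sum]
      refine Finset.sum_congr rfl fun i _ => ?_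
      rw [← hk i]
      ring
    rw [h1, Rat.cast_zero, mul_zero] at h2
    exact_mod_cast h2

variable {V : Type*} [NormedAddCommGroup V] [NormedSpace ℝ V] [FiniteDimensional ℝ V]
  {L : Submodule ℤ V} [DiscreteTopology L] [IsZLattice ℝ L]

/-- A functional whose kernel is spanned by lattice points is a multiple of an integral one. -/
theorem exists_integral {s : Finset V} (hs : (s : Set V) ⊆ L) {ψ : V →L[ℝ] ℝ} (hψ : ψ ≠ 0)
    (hker : ∀ x, ψ x = 0 → x ∈ Submodule.span ℝ (s : Set V)) (hs0 : ∀ a ∈ s, ψ a = 0) :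
    ∃ c : ℝ, 0 < c ∧ ∀ x ∈ L, ∃ k : ℤ, c * ψ x = k := by
  classical
  let b₀ := Module.Free.chooseBasis ℤ L
  let b := b₀.ofZLatticeBasis ℝ L
  have hbr : ∀ (x : V) (hx : x ∈ L) i, b.repr x i = (b₀.repr ⟨x, hx⟩ i : ℝ) := by
    intro x hx i
    exact b₀.ofZLatticeBasis_repr_apply ℝ L ⟨x, hx⟩ i
  let n : s → _ → ℤ := fun a i => b₀.repr ⟨a, hs a.2⟩ i
  have hsum : ∀ (φ : V →L[ℝ] ℝ) (x : V), φ x = ∑ i, b.repr x i * φ (b i) := by
    intro φ x
    conv_lhs => rw [← b.sum_repr x, map_sum]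
    simp only [map_smul, smul_eq_mul]
  obtain ⟨k, hk0, hk⟩ := exists_int_kernel n (fun i => ψ (b i)) (by
    intro h
    apply hψ
    ext x
    rw [hsum ψ x]
    have h1 : ∀ i, ψ (b i) = 0 := fun i => congrFun h i
    simp [h1]) (by
    intro a
    have h1 := hsum ψ a
    rw [hs0 a a.2] at h1
    rw [h1]
    refine Finset.sum_congr rfl fun i _ => ?_
    rw [hbr a (hs a.2) i])
  let ξ : V →L[ℝ] ℝ := ∑ i, (k i : ℝ) • LinearMap.toContinuousLinearMap (b.coord i)
  have hξ : ∀ x, ξ x = ∑ i, (k i : ℝ) * b.repr x i := by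
    intro x
    simp [ξ]
  have hξs : ∀ a ∈ s, ξ a = 0 := by
    intro a ha
    rw [hξ]
    have h1 := hk ⟨a, ha⟩
    have h2 : ((∑ i, n ⟨a, ha⟩ i * k i : ℤ) : ℝ) = 0 := by rw [h1, Int.cast_zero]
    rw [← h2]
    push_cast
    refine Finset.sum_congr rfl fun i _ => ?_
    rw [hbr a (hs ha) i, mul_comm]
  have hξint : ∀ x ∈ L, ∃ m : ℤ, ξ x = m := by
    intro x hx
    refine ⟨∑ i, k i * b₀.repr ⟨x, hx⟩ i, ?_⟩
    rw [hξ]
    push_cast
    exact Finset.sum_congr rfl fun i _ => by rw [hbr x hx i]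
  have hξ0 : ξ ≠ 0 := by
    intro h
    apply hk0
    ext i
    have h1 : ξ (b i) = 0 := by rw [h]; rfl
    rw [hξ] at h1
    simp only [b.repr_self, Finsupp.single_apply, mul_ite, mul_one, mul_zero] at h1
    rw [Finset.sum_ite_eq] at h1
    simpa using h1
  -- the kernel of `ψ` is in the kernel of `ξ`
  have hspan : ∀ x ∈ Submodule.span ℝ (s : Set V), ξ x = 0 := by
    intro x hx
    induction hx using Submodule.span_induction with
    | mem x hx => exact hξs x hx
    | zero => exact map_zero ξ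
    | add x y _ _ hx hy => rw [map_add, hx, hy, add_zero]
    | smul c x _ hx => rw [map_smul, hx, smul_zero]
  have hkk : ∀ x, ψ x = 0 → ξ x = 0 := fun x hx => hspan x (hker x hx)
  obtain ⟨v, hv⟩ : ∃ v, ψ v ≠ 0 := by
    by_contra h
    push Not at h
    exact hψ (ContinuousLinearMap.ext h)
  have hprop : ∀ x, ξ x = ξ v / ψ v * ψ x := by
    intro x
    have h1 : ψ (x - (ψ x / ψ v) • v) = 0 := by
      rw [map_sub, map_smul, smul_eq_mul, div_mul_cancel₀ _ hv, sub_self]
    have h2 := hkk _ h1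
    rw [map_sub, map_smul, smul_eq_mul, sub_eq_zero] at h2
    rw [h2]
    ring
  have hd : ξ v / ψ v ≠ 0 := by
    intro h
    apply hξ0
    ext x
    rw [hprop x, h, zero_mul]
    rfl
  refine ⟨|ξ v / ψ v|, abs_pos.2 hd, fun x hx => ?_⟩
  obtain ⟨m, hm⟩ := hξint x hx
  rcases abs_choice (ξ v / ψ v) with h | h
  · exact ⟨m, by rw [h, ← hprop, hm]⟩
  · exact ⟨-m, by rw [h, neg_mul, ← hprop, hm, Int.cast_neg]⟩

end Pool.Agent.Lib.Pad47bbY
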