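import Pool.Agent.Lib.Pad47bbY.Herm

/-!
The lattice of integral forms and the group of integral changes of coordinates.
-/

open Set Topology Matrix

namespace Pool.Agent.Lib.Pad47bbY

open Pool.Agent.Lib.Pad47bb Pool.Agent.Lib.Pad47bbV

variable {K : Type*} [RCLike K]

/-- The lattice of the forms with entries in `O`. -/
def latt (O : Subring K) (n : ℕ) : Submodule ℤ (Herm K n) where
  carrier := {x | ∀ i j, mat x i j ∈ O}
  add_mem' := by
    intro x y hx hy i j
    exact O.add_mem (hx i j) (hy i j)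
  zero_mem' := fun _ _ => O.zero_mem
  smul_mem' := by
    intro k x hx i j
    show k • mat x i j ∈ O
    exact O.zsmul_mem (hx i j) k

theorem mem_latt {O : Subring K} {n : ℕ} {x : Herm K n} :
    x ∈ latt O n ↔ ∀ i j, mat x i j ∈ O := Iff.rfl

theorem NormEuclid.exists_gap {O : Subring K} {ρ : ℝ} (hO : NormEuclid O ρ) :
    ∃ ε : ℝ, 0 < ε ∧ ∀ z ∈ O, ‖z‖ < ε → z = 0 := by
  have h1 : ({z : K | z ∈ O ∧ ‖z‖ ≤ 1} \ {0}).Finite := (hO.finite 1).subset sdiff_subset
  have h2 : ({z : K | z ∈ O ∧ ‖z‖ ≤ 1} \ {0})ᶜ ∈ 𝓝 (0 : K) :=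
    h1.isClosed.isOpen_compl.mem_nhds fun h => h.2 rfl
  obtain ⟨ε, hε, hball⟩ := Metric.mem_nhds_iff.1 h2
  refine ⟨min ε 1, lt_min hε one_pos, fun z hz hzε => ?_⟩
  by_contra h0
  have h3 : z ∈ Metric.ball (0 : K) ε := by
    rw [mem_ball_zero_iff]
    exact hzε.trans_le (min_le_left _ _)
  exact hball h3 ⟨⟨hz, (hzε.trans_le (min_le_right _ _)).le⟩, h0⟩

/-- The lattice is discrete. -/
theorem latt_discrete {O : Subring K} {ρ : ℝ} (hO : NormEuclid O ρ) (n : ℕ) :
    DiscreteTopology (latt O n) := by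
  obtain ⟨ε, hε, h⟩ := hO.exists_gap
  refine discreteTopology_of_isOpen_singleton_zero ?_
  rw [Metric.isOpen_iff]
  rintro x hx
  rw [mem_singleton_iff] at hx
  subst hx
  refine ⟨ε, hε, fun x hx => ?_⟩
  rw [mem_ball_zero_iff] at hx
  rw [mem_singleton_iff]
  apply Subtype.ext
  apply mat_injective
  ext i j
  refine h _ (x.2 i j) ?_
  have h1 : ‖mat x.1 i j‖ ≤ ‖x‖ := (norm_le_pi_norm (x.1.1 i) j).trans (norm_le_pi_norm x.1.1 i)
  exact h1.trans_lt hx

/-- The lattice spans. -/
theorem latt_isZLattice {O : Subring K} {ρ : ℝ} (hO : NormEuclid O ρ) (n : ℕ)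
    [DiscreteTopology (latt O n)] : IsZLattice ℝ (latt O n) := by
  classical
  refine ⟨?_⟩
  rw [eq_top_iff]
  intro x _
  have hcl : IsClosed (Submodule.span ℝ (latt O n : Set (Herm K n)) : Set (Herm K n)) :=
    Submodule.closed_of_finiteDimensional _
  rw [← SetLike.mem_coe, ← hcl.closure_eq, Metric.mem_closure_iff]
  intro ε hε
  obtain ⟨m, hm⟩ := exists_nat_gt (2 / ε)
  have hm0 : (0 : ℝ) < m := (by positivity : (0 : ℝ) < 2 / ε).trans hm
  -- integral approximations of `m x`
  choose w hwO hw using hO.near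
  let y : Fin n → Fin n → K := fun i j =>
    if i < j then w (m * mat x i j) else if j < i then star (w (m * mat x j i)) else
      ((round (m * RCLike.re (mat x i i)) : ℤ) : K)
  have hyH : ∀ i j, star (y i j) = y j i := by
    intro i j
    show star (if i < j then _ else if j < i then _ else _) =
      (if j < i then _ else if i < j then _ else _)
    rcases lt_trichotomy i j with h | h | h
    · rw [if_pos h, if_neg h.asymm, if_pos h]
    · subst h
      rw [if_neg (lt_irrefl _), if_neg (lt_irrefl _)]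
      simp
    · rw [if_neg h.asymm, if_pos h, if_pos h, star_star]
  let Y : Herm K n := ⟨y, hyH⟩
  have hYL : Y ∈ latt O n := by
    intro i j
    show (if i < j then _ else if j < i then _ else _) ∈ O
    split_ifs
    · exact hwO _
    · exact hO.star_mem _ (hwO _)
    · exact intCast_mem O _
  have hx : ∀ i j, star (mat x i j) = mat x j i := x.2
  have hρ1 := hO.lt_one
  have hnear : ∀ i j, ‖(m : K) * mat x i j - y i j‖ ≤ 1 := by
    intro i j
    show ‖(m : K) * mat x i j - (if i < j then _ else if j < i then _ else _)‖ ≤ 1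
    split_ifs with h1 h2
    · have h3 := hw (m * mat x i j)
      nlinarith [norm_nonneg ((m : K) * mat x i j - w (m * mat x i j))]
    · have h3 := hw (m * mat x j i)
      have h4 : (m : K) * mat x i j - star (w (m * mat x j i)) =
          star ((m : K) * mat x j i - w (m * mat x j i)) := by
        rw [star_sub, star_mul, hx]
        simp [mul_comm]
      rw [h4, norm_star]
      nlinarith [norm_nonneg ((m : K) * mat x j i - w (m * mat x j i))]
    · have h5 : i = j := le_antisymm (not_lt.1 h2) (not_lt.1 h1)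
      subst h5
      have h6 : ((RCLike.re (mat x i i) : ℝ) : K) = mat x i i :=
        (isHermitian_mat x).coe_re_apply_self i
      have h7 : (m : K) * mat x i i - ((round (m * RCLike.re (mat x i i)) : ℤ) : K) =
          (((m : ℝ) * RCLike.re (mat x i i) -
            (round (m * RCLike.re (mat x i i)) : ℤ) : ℝ) : K) := by
        rw [← h6]
        push_cast
        simp
      rw [h7, RCLike.norm_ofReal]
      exact (abs_sub_round _).trans (by norm_num)
  refine ⟨(m : ℝ)⁻¹ • Y, Submodule.smul_mem _ _ (Submodule.subset_span hYL), ?_⟩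
  rw [dist_eq_norm]
  have h8 : x - (m : ℝ)⁻¹ • Y = (m : ℝ)⁻¹ • ((m : ℝ) • x - Y) := by
    rw [smul_sub, smul_smul, inv_mul_cancel₀ hm0.ne', one_smul]
  rw [h8, norm_smul, Real.norm_eq_abs, abs_of_pos (inv_pos.2 hm0)]
  have h9 : ‖(m : ℝ) • x - Y‖ ≤ 1 := by
    refine (pi_norm_le_iff_of_nonneg zero_le_one).2 fun i => ?_
    refine (pi_norm_le_iff_of_nonneg zero_le_one).2 fun j => ?_
    have h10 := hnear i j
    have h11 : ((m : ℝ) • x - Y).1 i j = (m : K) * mat x i j - y i j := by
      show (m : ℝ) • x.1 i j - y i j = _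
      rw [RCLike.real_smul_eq_coe_mul, RCLike.ofReal_natCast]
      rfl
    show ‖((m : ℝ) • x - Y).1 i j‖ ≤ 1
    rw [h11]
    exact h10
  have h12 : (m : ℝ)⁻¹ < ε := by
    rw [inv_lt_comm₀ hm0 hε]
    refine lt_of_le_of_lt ?_ hm
    rw [inv_eq_one_div]
    gcongr
    norm_num
  nlinarith [inv_pos.2 hm0]

/-- The group of integral changes of coordinates. -/
def glForms (O : Subring K) (n : ℕ) : Subgroup (Herm K n ≃ₗ[ℝ] Herm K n) where
  carrier := {φ | ∃ g h, IsInv O g h ∧ ∀ x, mat (φ x) = gᴴ * mat x * g}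
  mul_mem' := by
    rintro φ ψ ⟨g, h, H, e⟩ ⟨g', h', H', e'⟩
    refine ⟨g' * g, h * h', H'.mul_inv H, fun x => ?_⟩
    show mat (φ (ψ x)) = _
    rw [e, e', conjTranspose_mul]
    simp only [Matrix.mul_assoc]
  one_mem' := ⟨1, 1, IsInv.one O n, fun x => by
    rw [conjTranspose_one, Matrix.one_mul, Matrix.mul_one]
    rfl⟩
  inv_mem' := by
    rintro φ ⟨g, h, H, e⟩
    refine ⟨h, g, H.symm, fun x => ?_⟩
    have h1 : φ (φ⁻¹ x) = x := φ.apply_symm_apply x
    have h2 := e (φ⁻¹ x)
    rw [h1] at h2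
    rw [h2]
    have h3 : hᴴ * gᴴ = 1 := by rw [← conjTranspose_mul, H.mul, conjTranspose_one]
    calc mat (φ⁻¹ x) = (hᴴ * gᴴ) * mat (φ⁻¹ x) * (g * h) := by
          rw [h3, H.mul, Matrix.one_mul, Matrix.mul_one]
      _ = _ := by simp only [Matrix.mul_assoc]

theorem mem_glForms {O : Subring K} {n : ℕ} {φ : Herm K n ≃ₗ[ℝ] Herm K n} :
    φ ∈ glForms O n ↔ ∃ g h, IsInv O g h ∧ ∀ x, mat (φ x) = gᴴ * mat x * g := Iff.rfl

/-- The change of coordinates by an integral invertible matrix. -/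
theorem exists_glForms {O : Subring K} {n : ℕ} {g h : Matrix (Fin n) (Fin n) K}
    (H : IsInv O g h) : ∃ φ ∈ glForms O n, ∀ x, mat (φ x) = gᴴ * mat x * g := by
  have key : ∀ g : Matrix (Fin n) (Fin n) K, ∃ f : Herm K n →ₗ[ℝ] Herm K n,
      ∀ x, mat (f x) = gᴴ * mat x * g := by
    intro g
    refine ⟨⟨⟨fun x => ofMat (gᴴ * mat x * g)
      (isHermitian_conjTranspose_mul_mul g (isHermitian_mat x)), ?_⟩, ?_⟩, fun x => rfl⟩
    · intro x y
      apply mat_injective
      rw [mat_ofMat, mat_add, mat_add, Matrix.mul_add, Matrix.add_mul]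
      rfl
    · intro r x
      apply mat_injective
      show gᴴ * mat (r • x) * g = mat (r • ofMat (gᴴ * mat x * g)
        (isHermitian_conjTranspose_mul_mul g (isHermitian_mat x)))
      rw [mat_smul, mat_smul, Matrix.mul_smul, Matrix.smul_mul]
      rfl
  obtain ⟨f, hf⟩ := key g
  obtain ⟨f', hf'⟩ := key h
  have h1 : ∀ x, f' (f x) = x := by
    intro x
    apply mat_injective
    rw [hf', hf]
    have h3 : hᴴ * gᴴ = 1 := by rw [← conjTranspose_mul, H.mul, conjTranspose_one]
    calc hᴴ * (gᴴ * mat x * g) * h = (hᴴ * gᴴ) * mat x * (g * h) := by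
          simp only [Matrix.mul_assoc]
      _ = mat x := by rw [h3, H.mul, Matrix.one_mul, Matrix.mul_one]
  have h2 : ∀ x, f (f' x) = x := by
    intro x
    apply mat_injective
    rw [hf, hf']
    have h3 : gᴴ * hᴴ = 1 := by rw [← conjTranspose_mul, H.mul', conjTranspose_one]
    calc gᴴ * (hᴴ * mat x * h) * g = (gᴴ * hᴴ) * mat x * (h * g) := by
          simp only [Matrix.mul_assoc]
      _ = mat x := by rw [h3, H.mul', Matrix.one_mul, Matrix.mul_one]
  exact ⟨LinearEquiv.ofLinearMap f f' (LinearMap.ext h2) (LinearMap.ext h1), ⟨g, h, H, hf⟩, hf⟩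

/-- The group preserves the lattice and the cone. -/
theorem acts_glForms {O : Subring K} {ρ : ℝ} (hO : NormEuclid O ρ) (n : ℕ) :
    Acts (latt O n) (psd K n) (glForms O n) where
  map_lattice := by
    rintro φ ⟨g, h, H, e⟩ x hx i j
    rw [e]
    refine mul_entries (mul_entries (fun i j => ?_) hx) H.left i j
    exact hO.star_mem _ (H.left j i)
  map_cone := by
    rintro φ ⟨g, h, H, e⟩ x hx v
    rw [e, qf_conj]
    exact hx _

end Pool.Agent.Lib.Pad47bbY
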