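import Pool.Agent.Lib.Pad47bbY.Siegel
import Pool.Agent.Lib.Pad47bbB.Main

/-!
Positive semidefinite Hermitian forms with rational kernel: a rational polyhedral fundamental
domain for the group of integral changes of coordinates.
-/

open Set Topology Matrix

namespace Pool.Agent.Lib.Pad47bbY

open Pool.Agent.Lib.Pad47bb Pool.Agent.Lib.Pad47bbV Pool.Agent.Lib.Pad47bbQ
  Pool.Agent.Lib.Pad47bbB

variable {K : Type*} [RCLike K]

/-- The interior of the cone is covered by the translates of a finitely generated cone. -/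
theorem exists_cover_forms {O : Subring K} {ρ : ℝ} (hO : NormEuclid O ρ) (n : ℕ) :
    ∃ F : Finset (Herm K n), (F : Set (Herm K n)) ⊆ latt O n ∧
      (F : Set (Herm K n)) ⊆ psd K n ∧
      ∀ x ∈ interior (psd K n : Set (Herm K n)), ∃ g ∈ glForms O n,
        ∃ y ∈ PointedCone.hull ℝ (F : Set (Herm K n)), g y = x := by
  obtain ⟨F, hFL, hFP, hF⟩ := siegel_cover hO n
  refine ⟨F, hFL, hFP, fun x hx => ?_⟩
  obtain ⟨g, h, H, y, hy, hyS⟩ := exists_siegel hO n x (isPD_of_mem_interior hx)
  obtain ⟨φ, hφ, hφx⟩ := exists_glForms H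
  refine ⟨φ⁻¹, inv_mem hφ, y, hF y hyS, ?_⟩
  have h1 : φ x = y := mat_injective (by rw [hφx, hy])
  rw [← h1]
  exact φ.symm_apply_apply x

/-- The interior of the cone is in the cone generated by the lattice points. -/
theorem interior_subset_ratHull_psd {O : Subring K} {ρ : ℝ} (hO : NormEuclid O ρ) (n : ℕ) :
    interior (psd K n : Set (Herm K n)) ⊆ ratHull (latt O n) (psd K n) := by
  obtain ⟨F, hFL, hFP, hF⟩ := exists_cover_forms hO n
  intro x hx
  obtain ⟨g, hg, y, hy, rfl⟩ := hF x hx
  refine ratHull_map (acts_glForms hO n) hg ?_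
  have h1 : (F : Set (Herm K n)) ⊆ (psd K n : Set (Herm K n)) ∩ (latt O n : Set (Herm K n)) :=
    fun a ha => ⟨hFP ha, hFL ha⟩
  exact Submodule.span_mono h1 hy

theorem setting_forms {O : Subring K} {ρ : ℝ} (hO : NormEuclid O ρ) (n : ℕ) :
    Setting (latt O n) (ratHull (latt O n) (psd K n)) (glForms O n) := by
  have := latt_discrete hO n
  have := latt_isZLattice hO n
  exact setting_ratHull (good_psd n) (acts_glForms hO n) (interior_subset_ratHull_psd hO n)

/-- Hermitian forms over a norm-Euclidean ring: rational polyhedral fundamental domain. -/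
theorem hasRPFD_forms {O : Subring K} {ρ : ℝ} (hO : NormEuclid O ρ) (n : ℕ) :
    HasRPFD (latt O n) (glForms O n) (ratHull (latt O n) (psd K n)) := by
  have := latt_discrete hO n
  have := latt_isZLattice hO n
  have hS := setting_forms hO n
  have hA := acts_glForms hO n
  obtain ⟨F, hFL, hFP, hF⟩ := exists_cover_forms hO n
  have hFK : (F : Set (Herm K n)) ⊆ ratHull (latt O n) (psd K n) := fun a ha =>
    Submodule.subset_span ⟨hFP ha, hFL ha⟩
  have hcl := closing hS F hFL hFK (fun x hx => exists_finset_of_ratHull hx)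
    (fun x hx => hF x (interior_mono (fun y hy => ratHull_le hy) hx))
  refine exists_fundDomain hS (P₁ := PointedCone.hull ℝ (F : Set (Herm K n))) ⟨F, hFL, rfl⟩ ?_
  apply Subset.antisymm
  · intro x hx
    obtain ⟨g, hg, y, hy, rfl⟩ := hcl x hx
    exact mem_biUnion hg ⟨y, hy, rfl⟩
  · intro x hx
    simp only [mem_iUnion] at hx
    obtain ⟨g, hg, y, hy, rfl⟩ := hx
    exact ratHull_map hA hg ((Submodule.span_le.2 fun a ha => hFK ha) hy)

end Pool.Agent.Lib.Pad47bbY
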