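import Mathlib

/-!
Reduction theory of positive definite Hermitian forms over a norm-Euclidean ring.
-/

open Matrix

namespace Pool.Agent.Lib.Pad47bbY

variable {K : Type*} [RCLike K]

/-- `O` is a discrete subring of `K` (`K = ℝ` or `ℂ`), stable under conjugation, such that every
element of `K` is at squared distance at most `ρ < 1` from `O`. -/
structure NormEuclid (O : Subring K) (ρ : ℝ) : Prop where
  star_mem : ∀ z ∈ O, star z ∈ O
  finite : ∀ r : ℝ, {z : K | z ∈ O ∧ ‖z‖ ≤ r}.Finite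
  near : ∀ z : K, ∃ w ∈ O, ‖z - w‖ ^ 2 ≤ ρ
  lt_one : ρ < 1

/-- The values of the form with matrix `x`. -/
noncomputable def qf {n : ℕ} (x : Matrix (Fin n) (Fin n) K) (v : Fin n → K) : ℝ :=
  RCLike.re (star v ⬝ᵥ (x *ᵥ v))

/-- `x` is positive definite. -/
def IsPD {n : ℕ} (x : Matrix (Fin n) (Fin n) K) : Prop := ∀ v, v ≠ 0 → 0 < qf x v

/-- `g` and `h` are inverse matrices with entries in `O`. -/
structure IsInv (O : Subring K) {n : ℕ} (g h : Matrix (Fin n) (Fin n) K) : Prop where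
  left : ∀ i j, g i j ∈ O
  right : ∀ i j, h i j ∈ O
  mul : g * h = 1
  mul' : h * g = 1

theorem qf_conj {n : ℕ} (x g : Matrix (Fin n) (Fin n) K) (v : Fin n → K) :
    qf (gᴴ * x * g) v = qf x (g *ᵥ v) := by
  unfold qf
  congr 1
  rw [star_mulVec, ← dotProduct_mulVec, mulVec_mulVec, mulVec_mulVec, Matrix.mul_assoc]

theorem IsInv.one (O : Subring K) (n : ℕ) : IsInv O (1 : Matrix (Fin n) (Fin n) K) 1 where
  left := fun i j => by
    rw [Matrix.one_apply]
    split_ifs
    · exact O.one_mem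
    · exact O.zero_mem
  right := fun i j => by
    rw [Matrix.one_apply]
    split_ifs
    · exact O.one_mem
    · exact O.zero_mem
  mul := one_mul 1
  mul' := one_mul 1

theorem mul_entries {O : Subring K} {n : ℕ} {g g' : Matrix (Fin n) (Fin n) K}
    (h : ∀ i j, g i j ∈ O) (h' : ∀ i j, g' i j ∈ O) (i j : Fin n) : (g * g') i j ∈ O := by
  rw [Matrix.mul_apply]
  exact O.sum_mem fun k _ => O.mul_mem (h i k) (h' k j)

theorem IsInv.mul_inv {O : Subring K} {n : ℕ} {g h g' h' : Matrix (Fin n) (Fin n) K}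
    (H : IsInv O g h) (H' : IsInv O g' h') : IsInv O (g * g') (h' * h) where
  left := mul_entries H.left H'.left
  right := mul_entries H'.right H.right
  mul := by
    rw [Matrix.mul_assoc, ← Matrix.mul_assoc g' h' h, H'.mul, Matrix.one_mul, H.mul]
  mul' := by
    rw [Matrix.mul_assoc, ← Matrix.mul_assoc h g g', H.mul', Matrix.one_mul, H'.mul']

theorem IsInv.symm {O : Subring K} {n : ℕ} {g h : Matrix (Fin n) (Fin n) K}
    (H : IsInv O g h) : IsInv O h g := ⟨H.right, H.left, H.mul', H.mul⟩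

theorem IsPD.conj {n : ℕ} {x g h : Matrix (Fin n) (Fin n) K} (hx : IsPD x) (hgh : h * g = 1) :
    IsPD (gᴴ * x * g) := by
  intro v hv
  rw [qf_conj]
  apply hx
  intro h0
  apply hv
  have h1 : h *ᵥ (g *ᵥ v) = v := by rw [mulVec_mulVec, hgh, one_mulVec]
  rw [h0, mulVec_zero] at h1
  exact h1.symm

theorem continuous_qf {n : ℕ} (x : Matrix (Fin n) (Fin n) K) : Continuous (qf x) := by
  unfold qf
  refine RCLike.continuous_re.comp ?_
  refine Continuous.dotProduct continuous_star ?_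
  exact Continuous.matrix_mulVec continuous_const continuous_id

theorem qf_smul {n : ℕ} (x : Matrix (Fin n) (Fin n) K) (r : ℝ) (v : Fin n → K) :
    qf x ((r : K) • v) = r ^ 2 * qf x v := by
  unfold qf
  rw [star_smul, mulVec_smul, smul_dotProduct, dotProduct_smul, smul_eq_mul, smul_eq_mul]
  have h1 : star (r : K) = (r : K) := by simp
  rw [h1, ← mul_assoc, ← RCLike.ofReal_mul, RCLike.re_ofReal_mul]
  ring

/-- A positive definite form is bounded below by a multiple of the square of the norm. -/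
theorem IsPD.exists_bound {n : ℕ} {x : Matrix (Fin n) (Fin n) K} (hx : IsPD x) :
    ∃ δ : ℝ, 0 < δ ∧ ∀ v, δ * ‖v‖ ^ 2 ≤ qf x v := by
  have hcomp : IsCompact (Metric.sphere (0 : Fin n → K) 1) := isCompact_sphere 0 1
  have key : ∃ δ : ℝ, 0 < δ ∧ ∀ v ∈ Metric.sphere (0 : Fin n → K) 1, δ ≤ qf x v := by
    rcases (Metric.sphere (0 : Fin n → K) 1).eq_empty_or_nonempty with h | h
    · exact ⟨1, one_pos, fun v hv => by rw [h] at hv; exact hv.elim⟩
    · obtain ⟨w, hw, hmin⟩ := hcomp.exists_isMinOn h (continuous_qf x).continuousOn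
      refine ⟨qf x w, hx w ?_, fun v hv => hmin hv⟩
      rintro rfl
      simp at hw
  obtain ⟨δ, hδ, hv⟩ := key
  refine ⟨δ, hδ, fun v => ?_⟩
  by_cases h0 : v = 0
  · subst h0
    unfold qf
    simp
  have hn : 0 < ‖v‖ := norm_pos_iff.2 h0
  have h1 := hv (((‖v‖⁻¹ : ℝ) : K) • v) (by
    rw [mem_sphere_zero_iff_norm, norm_smul, RCLike.norm_ofReal, abs_of_pos (inv_pos.2 hn),
      inv_mul_cancel₀ hn.ne'])
  rw [qf_smul] at h1
  rw [inv_pow, ← div_eq_inv_mul, le_div_iff₀ (by positivity)] at h1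
  exact h1

/-- The integral vectors of bounded value are finite in number. -/
theorem finite_le_qf {O : Subring K} {ρ : ℝ} (hO : NormEuclid O ρ) {n : ℕ}
    {x : Matrix (Fin n) (Fin n) K} (hx : IsPD x) (C : ℝ) :
    {v : Fin n → K | (∀ i, v i ∈ O) ∧ qf x v ≤ C}.Finite := by
  obtain ⟨δ, hδ, hb⟩ := hx.exists_bound
  have h1 : {f : Fin n → K | ∀ i, f i ∈ {z : K | z ∈ O ∧ ‖z‖ ≤ 1 + |C| / δ}}.Finite :=
    Set.Finite.pi' fun _ => hO.finite _
  refine h1.subset ?_
  rintro v ⟨hv, hC⟩ i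
  refine ⟨hv i, ?_⟩
  have h2 := hb v
  have h3 : ‖v‖ ^ 2 ≤ |C| / δ := by
    rw [le_div_iff₀ hδ, mul_comm]
    exact (h2.trans hC).trans (le_abs_self C)
  have h4 : ‖v i‖ ≤ ‖v‖ := norm_le_pi_norm v i
  have h5 : 0 ≤ |C| / δ := by positivity
  nlinarith [norm_nonneg v, sq_nonneg (‖v‖ - 1)]

end Pool.Agent.Lib.Pad47bbY
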