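import Pool.Agent.Lib.Pad47bbY.Latt

/-!
Siegel reduced Hermitian forms: every positive definite form is equivalent to a reduced form, and
the reduced forms are in a finitely generated cone.
-/

open Set Topology Matrix

namespace Pool.Agent.Lib.Pad47bbY

open Pool.Agent.Lib.Pad47bb Pool.Agent.Lib.Pad47bbV

variable {K : Type*} [RCLike K]

theorem isHermitian_ext {n : ℕ} (a : ℝ) (μ : Fin n → K) {z : Matrix (Fin n) (Fin n) K}
    (hz : z.IsHermitian) : (ext a μ z).IsHermitian := by
  have ha : star (a : K) = a := by simp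
  ext i j
  rw [conjTranspose_apply]
  refine Fin.cases ?_ (fun i => ?_) i <;> refine Fin.cases ?_ (fun j => ?_) j
  · rw [ext_zero_zero, ha]
  · rw [ext_zero_succ, ext_succ_zero, star_mul', ha, star_star]
  · rw [ext_zero_succ, ext_succ_zero, star_mul', ha]
  · rw [ext_succ_succ, ext_succ_succ, star_add, star_mul', star_mul', ha, star_star, hz.apply]
    ring

/-- The form `a |v₀ + μ v'|² + z(v')`. -/
def extH {n : ℕ} (a : ℝ) (μ : Fin n → K) (z : Herm K n) : Herm K (n + 1) :=
  ofMat (ext a μ (mat z)) (isHermitian_ext a μ (isHermitian_mat z))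

theorem mat_extH {n : ℕ} (a : ℝ) (μ : Fin n → K) (z : Herm K n) :
    mat (extH a μ z) = ext a μ (mat z) := rfl

theorem ext_add {n : ℕ} (a b : ℝ) (μ : Fin n → K) (z w : Matrix (Fin n) (Fin n) K) :
    ext (a + b) μ (z + w) = ext a μ z + ext b μ w := by
  unfold ext
  rw [RCLike.ofReal_add, add_smul, Matrix.mul_add, Matrix.add_mul]
  abel

theorem ext_smul {n : ℕ} (a r : ℝ) (μ : Fin n → K) (z : Matrix (Fin n) (Fin n) K) :
    ext (r * a) μ ((r : K) • z) = (r : K) • ext a μ z := by
  unfold ext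
  rw [RCLike.ofReal_mul, mul_smul, Matrix.mul_smul, Matrix.smul_mul, smul_add]

theorem ext_zero {n : ℕ} (μ : Fin n → K) (z : Matrix (Fin n) (Fin n) K) :
    ext 0 μ z = ext 0 0 z := by
  unfold ext
  rw [RCLike.ofReal_zero, zero_smul, zero_smul]

theorem extH_add {n : ℕ} (a b : ℝ) (μ : Fin n → K) (z w : Herm K n) :
    extH (a + b) μ (z + w) = extH a μ z + extH b μ w := by
  apply mat_injective
  rw [mat_add, mat_extH, mat_extH, mat_extH, mat_add, ext_add]

theorem extH_smul {n : ℕ} (a r : ℝ) (μ : Fin n → K) (z : Herm K n) :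
    extH (r * a) μ (r • z) = r • extH a μ z := by
  apply mat_injective
  rw [mat_smul, mat_extH, mat_extH, mat_smul, ext_smul]

theorem extH_zero {n : ℕ} (μ : Fin n → K) (z : Herm K n) : extH 0 μ z = extH 0 0 z := by
  apply mat_injective
  rw [mat_extH, mat_extH, ext_zero]

/-- The forms in the last `n` variables. -/
def embH (K : Type*) [RCLike K] (n : ℕ) : Herm K n →ₗ[ℝ] Herm K (n + 1) where
  toFun := fun z => extH 0 0 z
  map_add' := fun z w => by
    have h1 := extH_add 0 0 (0 : Fin n → K) z w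
    rwa [add_zero] at h1
  map_smul' := fun r z => by
    have h1 := extH_smul 0 r (0 : Fin n → K) z
    rwa [mul_zero] at h1

/-- Siegel reduced forms. -/
def IsSiegel (ρ : ℝ) : (n : ℕ) → Herm K n → Prop
  | 0, _ => True
  | n + 1, x => ∃ (a : ℝ) (μ : Fin n → K) (z : Herm K n), 0 ≤ a ∧
      (∀ i, ‖μ i‖ ^ 2 ≤ ρ) ∧ IsSiegel ρ n z ∧
      (∀ i : Fin n, (i : ℕ) = 0 → (1 - ρ) * a ≤ RCLike.re (mat z i i)) ∧ x = extH a μ z

/-- Every positive definite Hermitian form is equivalent to a Siegel reduced form. -/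
theorem exists_siegel {O : Subring K} {ρ : ℝ} (hO : NormEuclid O ρ) :
    ∀ (n : ℕ) (x : Herm K n), IsPD (mat x) →
      ∃ g h, IsInv O g h ∧ ∃ y : Herm K n, mat y = gᴴ * mat x * g ∧ IsSiegel ρ n y := by
  intro n
  induction n with
  | zero =>
    exact fun x _ => ⟨1, 1, IsInv.one O 0, x, by
      rw [conjTranspose_one, Matrix.one_mul, Matrix.mul_one], trivial⟩
  | succ n ih =>
    intro x₀ hp
    have hx := isHermitian_mat x₀
    set x := mat x₀ with hxdef
    -- the unimodular vectors
    let S : Set (Fin (n + 1) → K) := {v | ∃ g h, IsInv O g h ∧ v = g *ᵥ Pi.single 0 1}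
    have hSO : ∀ v ∈ S, ∀ i, v i ∈ O := by
      rintro v ⟨g, h, H, rfl⟩ i
      rw [mulVec_single_one]
      exact H.left i 0
    let e₀ : Fin (n + 1) → K := Pi.single 0 1
    have he₀ : e₀ ∈ S := ⟨1, 1, IsInv.one O _, by rw [one_mulVec]⟩
    have hfin : ({v | (∀ i, v i ∈ O) ∧ qf x v ≤ qf x e₀} ∩ S).Finite :=
      (finite_le_qf hO hp _).inter_of_left _
    obtain ⟨v₀, ⟨⟨-, hv₀e⟩, hv₀S⟩, hmin⟩ := Set.exists_min_image _ (qf x) hfin
      ⟨e₀, ⟨hSO _ he₀, le_refl _⟩, he₀⟩
    have hmin' : ∀ v ∈ S, qf x v₀ ≤ qf x v := by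
      intro v hv
      by_cases h : qf x v ≤ qf x e₀
      · exact hmin v ⟨⟨hSO v hv, h⟩, hv⟩
      · exact hv₀e.trans (not_le.1 h).le
    obtain ⟨g₀, h₀, H₀, rfl⟩ := hv₀S
    have hyH : (g₀ᴴ * x * g₀).IsHermitian := isHermitian_conjTranspose_mul_mul g₀ hx
    have hyP : IsPD (g₀ᴴ * x * g₀) := hp.conj H₀.mul'
    obtain ⟨a, μ, z, ha, hzH, hzP, e⟩ := exists_ext hyH hyP
    have haval : a = qf x (g₀ *ᵥ Pi.single 0 1) := by
      rw [← qf_conj, qf_single, e, ext_zero_zero, RCLike.ofReal_re]
    obtain ⟨h, h', H, y, hy, hS⟩ := ih (ofMat z hzH) hzP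
    rw [mat_ofMat] at hy
    choose o ho using fun k => hO.near ((μ ᵥ* h) k)
    have Ht : IsInv O (tri (-o) h) (tri (-((-o) ᵥ* h')) h') :=
      H.tri fun i => O.neg_mem (ho i).1
    have Hg := H₀.mul_inv Ht
    have hconj : (g₀ * tri (-o) h)ᴴ * x * (g₀ * tri (-o) h) =
        ext a (-o + μ ᵥ* h) (mat y) := by
      rw [hy, ← tri_conj, ← e, conjTranspose_mul]
      simp only [Matrix.mul_assoc]
    have hμ : ∀ i, ‖(-o + μ ᵥ* h) i‖ ^ 2 ≤ ρ := by
      intro i
      have h1 := (ho i).2
      rwa [show (-o + μ ᵥ* h) i = (μ ᵥ* h) i - o i by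
        rw [Pi.add_apply, Pi.neg_apply]; ring]
    refine ⟨_, _, Hg, extH a (-o + μ ᵥ* h) y, hconj.symm, a, -o + μ ᵥ* h, y, ha.le, hμ, hS, ?_,
      rfl⟩
    intro i _
    -- minimality applied to the vector `e (i + 1)`
    have h1 : (g₀ * tri (-o) h) *ᵥ Pi.single i.succ 1 ∈ S := by
      refine ⟨_, _, Hg.mul_inv (isInv_permM O (Equiv.swap 0 i.succ)), ?_⟩
      have e1 : permM K (Equiv.swap 0 i.succ) *ᵥ Pi.single 0 1 = Pi.single i.succ 1 := by
        rw [mulVec_single_one]
        ext j
        show (if j = Equiv.swap 0 i.succ 0 then (1 : K) else 0) = _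
        rw [Equiv.swap_apply_left, Pi.single_apply]
      rw [← mulVec_mulVec (Pi.single 0 1) (g₀ * tri (-o) h) (permM K (Equiv.swap 0 i.succ)), e1]
    have h2 := hmin' _ h1
    rw [← haval, ← qf_conj, hconj, qf_ext] at h2
    have h3 : row1 (-o + μ ᵥ* h) ⬝ᵥ Pi.single i.succ 1 = (-o + μ ᵥ* h) i := by
      rw [dotProduct_single_one]
      rfl
    have h4 : (fun j : Fin n => (Pi.single i.succ (1 : K) : Fin (n + 1) → K) j.succ) =
        Pi.single i 1 := by
      ext j
      simp [Pi.single_apply]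
    rw [h3, h4, qf_single] at h2
    have h5 := mul_le_mul_of_nonneg_left (hμ i) ha.le
    linarith

/-- The compact set used to peel off reduced forms. -/
def core (K : Type*) [RCLike K] (ρ : ℝ) : (n : ℕ) → Set (Herm K n)
  | 0 => {0}
  | n + 1 => (fun p : (Fin n → K) × Herm K n => extH 1 p.1 ((1 - ρ) • p.2)) ''
      ({μ | ∀ i, ‖μ i‖ ^ 2 ≤ ρ} ×ˢ core K ρ n)

theorem core_diag {ρ : ℝ} {n : ℕ} {Y : Herm K n} (hY : Y ∈ core K ρ n) (i : Fin n)
    (hi : (i : ℕ) = 0) : RCLike.re (mat Y i i) = 1 := by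
  cases n with
  | zero => exact i.elim0
  | succ n =>
    obtain ⟨p, -, rfl⟩ := hY
    have h0 : i = 0 := Fin.ext hi
    subst h0
    rw [mat_extH, ext_zero_zero, RCLike.ofReal_re]

theorem core_isPD {ρ : ℝ} (hρ : ρ < 1) : ∀ (n : ℕ) (Y : Herm K n), Y ∈ core K ρ n →
    IsPD (mat Y) := by
  intro n
  induction n with
  | zero =>
    intro Y _ v hv
    exact absurd (Subsingleton.elim v 0) hv
  | succ n ih =>
    rintro _ ⟨⟨μ, Y⟩, ⟨-, hY⟩, rfl⟩ v hv
    rw [mat_extH, qf_ext, mat_smul, qf_rsmul, one_mul]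
    have hs : 0 < 1 - ρ := by linarith
    by_cases h : (fun i : Fin n => v i.succ) = 0
    · have h1 : row1 μ ⬝ᵥ v = v 0 := by
        have h2 : ∀ i : Fin n, v i.succ = 0 := fun i => congrFun h i
        simp [row1, dotProduct, Fin.sum_univ_succ, h2]
      have h3 : v 0 ≠ 0 := by
        intro h4
        apply hv
        ext i
        refine Fin.cases h4 (fun i => ?_) i
        exact congrFun h i
      have h5 : 0 < ‖v 0‖ := norm_pos_iff.2 h3
      dsimp only
      rw [h, h1]
      have h6 : qf (mat Y) (0 : Fin n → K) = 0 := by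
        unfold qf
        rw [mulVec_zero, dotProduct_zero, map_zero]
      rw [h6]
      positivity
    · have h1 := ih Y hY _ h
      have h2 := mul_pos hs h1
      positivity

theorem continuous_mat {n : ℕ} (i j : Fin n) : Continuous fun x : Herm K n => mat x i j :=
  (continuous_apply j).comp ((continuous_apply i).comp continuous_subtype_val)

theorem continuous_extH (n : ℕ) (s : ℝ) :
    Continuous fun p : (Fin n → K) × Herm K n => extH 1 p.1 (s • p.2) := by
  refine Continuous.subtype_mk ?_ _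
  refine continuous_pi fun i => continuous_pi fun j => ?_
  have h1 : ∀ (i : Fin n), Continuous fun p : (Fin n → K) × Herm K n => p.1 i :=
    fun i => (continuous_apply i).comp continuous_fst
  have h2 : ∀ (i j : Fin n), Continuous fun p : (Fin n → K) × Herm K n =>
      mat (s • p.2) i j := by
    intro i j
    have h3 : Continuous fun p : (Fin n → K) × Herm K n => s • p.2 :=
      continuous_snd.const_smul s
    exact (continuous_mat i j).comp h3
  refine Fin.cases ?_ (fun i => ?_) i <;> refine Fin.cases ?_ (fun j => ?_) j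
  · simp only [ext_zero_zero]
    exact continuous_const
  · simp only [ext_zero_succ]
    exact continuous_const.mul (h1 j)
  · simp only [ext_succ_zero]
    exact continuous_const.mul (continuous_star.comp (h1 i))
  · simp only [ext_succ_succ]
    exact (continuous_const.mul ((continuous_star.comp (h1 i)).mul (h1 j))).add (h2 i j)

theorem core_isCompact (ρ : ℝ) : ∀ n : ℕ, IsCompact (core K ρ n) := by
  intro n
  induction n with
  | zero => exact isCompact_singleton
  | succ n ih =>
    refine IsCompact.image ?_ (continuous_extH n (1 - ρ))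
    refine IsCompact.prod ?_ ih
    refine Metric.isCompact_of_isClosed_isBounded ?_ ?_
    · have h1 : {μ : Fin n → K | ∀ i, ‖μ i‖ ^ 2 ≤ ρ} = ⋂ i, {μ | ‖μ i‖ ^ 2 ≤ ρ} := by
        ext μ
        simp only [mem_iInter]
        rfl
      rw [h1]
      exact isClosed_iInter fun i =>
        isClosed_le ((continuous_apply i).norm.pow 2) continuous_const
    · refine isBounded_iff_forall_norm_le.2 ⟨1 + |ρ|, fun μ hμ => ?_⟩
      refine (pi_norm_le_iff_of_nonneg (by positivity)).2 fun i => ?_
      have h1 := hμ i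
      nlinarith [norm_nonneg (μ i), le_abs_self ρ, abs_nonneg ρ]

/-- A reduced form minus a multiple of an element of the core. -/
theorem peel {ρ : ℝ} (hρ : ρ < 1) : ∀ (n : ℕ) (x : Herm K n) (b : ℝ), IsSiegel ρ n x → 0 ≤ b →
    (∀ i : Fin n, (i : ℕ) = 0 → b ≤ RCLike.re (mat x i i)) →
    ∃ Y ∈ core K ρ n, ∃ x', IsSiegel ρ n x' ∧ x = b • Y + x' := by
  intro n
  induction n with
  | zero =>
    intro x b _ _ _
    refine ⟨0, rfl, x, trivial, ?_⟩
    rw [smul_zero, zero_add]
  | succ n ih =>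
    rintro x b ⟨a, μ, z, ha, hμ, hz, hza, rfl⟩ hb hba
    have hba' : b ≤ a := by
      have h1 := hba 0 rfl
      rwa [mat_extH, ext_zero_zero, RCLike.ofReal_re] at h1
    have hs : 0 < 1 - ρ := by linarith
    obtain ⟨Y, hY, z', hz', hzz⟩ := ih z ((1 - ρ) * b) hz (by positivity) fun i hi =>
      (mul_le_mul_of_nonneg_left hba' hs.le).trans (hza i hi)
    refine ⟨extH 1 μ ((1 - ρ) • Y), ⟨(μ, Y), ⟨hμ, hY⟩, rfl⟩, extH (a - b) μ z', ?_, ?_⟩
    · refine ⟨a - b, μ, z', by linarith, hμ, hz', fun i hi => ?_, rfl⟩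
      have h1 := hza i hi
      have h2 := core_diag hY i hi
      rw [hzz, mat_add, mat_smul] at h1
      have h3 : (((((1 - ρ) * b : ℝ) : K) • mat Y + mat z' : Matrix _ _ K)) i i =
        (((1 - ρ) * b : ℝ) : K) * mat Y i i + mat z' i i := rfl
      rw [h3, map_add, RCLike.re_ofReal_mul, h2] at h1
      linarith
    · rw [← extH_smul, ← extH_add, hzz, smul_smul, mul_comm b (1 - ρ), mul_one,
        add_sub_cancel]

/-- The reduced forms are in a finitely generated cone. -/
theorem siegel_cover {O : Subring K} {ρ : ℝ} (hO : NormEuclid O ρ) :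
    ∀ n : ℕ, ∃ F : Finset (Herm K n), (F : Set (Herm K n)) ⊆ latt O n ∧
      (F : Set (Herm K n)) ⊆ psd K n ∧
      ∀ x : Herm K n, IsSiegel ρ n x → x ∈ PointedCone.hull ℝ (F : Set (Herm K n)) := by
  classical
  intro n
  induction n with
  | zero =>
    refine ⟨∅, by simp, by simp, fun x _ => ?_⟩
    have h1 : x = 0 := by
      apply Subtype.ext
      ext i
      exact i.elim0
    rw [h1]
    exact Submodule.zero_mem _
  | succ n ih =>
    obtain ⟨F, hFL, hFP, hF⟩ := ih
    have := latt_discrete hO (n + 1)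
    have := latt_isZLattice hO (n + 1)
    obtain ⟨P, ⟨s, hsL, rfl⟩, hPle, hcore⟩ := exists_ratPoly_cover (latt O (n + 1))
      (C := psd K (n + 1)) (core_isCompact (K := K) ρ (n + 1))
      (fun Y hY => mem_interior_of_isPD (core_isPD hO.lt_one _ Y hY))
    have hs : 0 < 1 - ρ := by linarith [hO.lt_one]
    refine ⟨s ∪ F.image (embH K n), ?_, ?_, ?_⟩
    · intro y hy
      rcases Finset.mem_union.1 (Finset.mem_coe.1 hy) with hy | hy
      · exact hsL hy
      · obtain ⟨x, hx, rfl⟩ := Finset.mem_image.1 hy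
        have hxL := hFL hx
        intro i j
        show ext 0 0 (mat x) i j ∈ O
        refine Fin.cases ?_ (fun i => ?_) i <;> refine Fin.cases ?_ (fun j => ?_) j
        · rw [ext_zero_zero, RCLike.ofReal_zero]
          exact O.zero_mem
        · rw [ext_zero_succ, RCLike.ofReal_zero, zero_mul]
          exact O.zero_mem
        · rw [ext_succ_zero, RCLike.ofReal_zero, zero_mul]
          exact O.zero_mem
        · rw [ext_succ_succ, RCLike.ofReal_zero, zero_mul, zero_add]
          exact hxL i j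
    · intro y hy
      rcases Finset.mem_union.1 (Finset.mem_coe.1 hy) with hy | hy
      · exact intCone_le _ (hPle (Submodule.subset_span hy))
      · obtain ⟨x, hx, rfl⟩ := Finset.mem_image.1 hy
        intro v
        show 0 ≤ qf (ext 0 0 (mat x)) v
        rw [qf_ext, zero_mul, zero_add]
        exact hFP hx _
    · rintro x ⟨a, μ, z, ha, hμ, hz, hza, rfl⟩
      obtain ⟨Y, hY, z', hz', hzz⟩ := peel hO.lt_one n z ((1 - ρ) * a) hz (by positivity) hza
      have h1 : extH a μ z = a • extH 1 μ ((1 - ρ) • Y) + embH K n z' := by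
        show _ = _ + extH 0 0 z'
        rw [← extH_smul, ← extH_zero μ z', ← extH_add, hzz, smul_smul, mul_comm a (1 - ρ),
          mul_one, add_zero]
      rw [h1]
      refine Submodule.add_mem _ ?_ ?_
      · refine PointedCone.smul_mem _ ha ?_
        refine Submodule.span_mono ?_ (hcore ⟨(μ, Y), ⟨hμ, hY⟩, rfl⟩)
        rw [Finset.coe_union]
        exact subset_union_left
      · obtain ⟨c, hc, hzc⟩ := mem_hull_finset.1 (hF z' hz')
        rw [hzc, map_sum]
        refine Submodule.sum_mem _ fun y hy => ?_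
        rw [map_smul]
        refine PointedCone.smul_mem _ (hc y hy) (Submodule.subset_span ?_)
        rw [Finset.coe_union]
        exact Or.inr (Finset.mem_coe.2 (Finset.mem_image_of_mem _ hy))

end Pool.Agent.Lib.Pad47bbY
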