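import Pool.Agent.Lib.Pad47bbY.Reduce

/-!
The inductive step of reduction theory: block matrices.
-/

open Matrix

namespace Pool.Agent.Lib.Pad47bbY

variable {K : Type*} [RCLike K]

/-- The row vector `(1, μ)`. -/
def row1 {n : ℕ} (μ : Fin n → K) : Fin (n + 1) → K := Fin.cons 1 μ

/-- The matrix forgetting the first coordinate. -/
def shiftM (K : Type*) [RCLike K] (n : ℕ) : Matrix (Fin n) (Fin (n + 1)) K :=
  Matrix.of fun i j => if j = i.succ then 1 else 0

/-- The matrix `[1 r; 0 h]`. -/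
def tri {n : ℕ} (r : Fin n → K) (h : Matrix (Fin n) (Fin n) K) :
    Matrix (Fin (n + 1)) (Fin (n + 1)) K :=
  Matrix.of (Fin.cons (Fin.cons 1 r) fun i => Fin.cons 0 (h i))

/-- The form `a |v₀ + μ v'|² + z(v')`. -/
def ext {n : ℕ} (a : ℝ) (μ : Fin n → K) (z : Matrix (Fin n) (Fin n) K) :
    Matrix (Fin (n + 1)) (Fin (n + 1)) K :=
  (a : K) • vecMulVec (star (row1 μ)) (row1 μ) + (shiftM K n)ᴴ * z * shiftM K n

theorem shiftM_mulVec {n : ℕ} (v : Fin (n + 1) → K) :
    shiftM K n *ᵥ v = fun i => v i.succ := by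
  ext i
  simp [shiftM, mulVec, dotProduct]

theorem row1_tri {n : ℕ} (μ r : Fin n → K) (h : Matrix (Fin n) (Fin n) K) :
    row1 μ ᵥ* tri r h = row1 (r + μ ᵥ* h) := by
  ext j
  refine Fin.cases ?_ (fun j => ?_) j
  · simp [row1, tri, vecMul, dotProduct, Fin.sum_univ_succ]
  · simp [row1, tri, vecMul, dotProduct, Fin.sum_univ_succ]

theorem shiftM_tri {n : ℕ} (r : Fin n → K) (h : Matrix (Fin n) (Fin n) K) :
    shiftM K n * tri r h = h * shiftM K n := by
  ext i j
  rw [Matrix.mul_apply, Matrix.mul_apply]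
  have h0 : ∀ j : Fin n, (0 : Fin (n + 1)) ≠ j.succ := fun j => (Fin.succ_ne_zero j).symm
  refine Fin.cases ?_ (fun j => ?_) j
  · simp [shiftM, tri, h0]
  · simp [shiftM, tri]

theorem tri_mul {n : ℕ} (r r' : Fin n → K) (h h' : Matrix (Fin n) (Fin n) K) :
    tri r h * tri r' h' = tri (r' + r ᵥ* h') (h * h') := by
  ext i j
  rw [Matrix.mul_apply]
  refine Fin.cases ?_ (fun i => ?_) i <;> refine Fin.cases ?_ (fun j => ?_) j <;>
  simp [tri, Fin.sum_univ_succ, vecMul, dotProduct, Matrix.mul_apply]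

theorem tri_one {n : ℕ} : tri (0 : Fin n → K) 1 = 1 := by
  have h0 : ∀ j : Fin n, (0 : Fin (n + 1)) ≠ j.succ := fun j => (Fin.succ_ne_zero j).symm
  ext i j
  refine Fin.cases ?_ (fun i => ?_) i <;> refine Fin.cases ?_ (fun j => ?_) j <;>
  simp [tri, Matrix.one_apply, h0]

theorem tri_conj {n : ℕ} (a : ℝ) (μ r : Fin n → K) (z h : Matrix (Fin n) (Fin n) K) :
    (tri r h)ᴴ * ext a μ z * tri r h = ext a (r + μ ᵥ* h) (hᴴ * z * h) := by
  unfold ext
  rw [Matrix.mul_add, Matrix.add_mul]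
  congr 1
  · rw [Matrix.mul_smul, Matrix.smul_mul, mul_vecMulVec, vecMulVec_mul, row1_tri]
    congr 2
    rw [← row1_tri μ r h, star_vecMul]
  · have h1 := shiftM_tri r h
    calc (tri r h)ᴴ * ((shiftM K n)ᴴ * z * shiftM K n) * tri r h
        = (shiftM K n * tri r h)ᴴ * z * (shiftM K n * tri r h) := by
          rw [conjTranspose_mul]
          simp only [Matrix.mul_assoc]
      _ = (shiftM K n)ᴴ * (hᴴ * z * h) * shiftM K n := by
          rw [h1, conjTranspose_mul]
          simp only [Matrix.mul_assoc]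

theorem IsInv.tri {O : Subring K} {n : ℕ} {h h' : Matrix (Fin n) (Fin n) K}
    (H : IsInv O h h') {r : Fin n → K} (hr : ∀ i, r i ∈ O) :
    IsInv O (tri r h) (tri (-(r ᵥ* h')) h') where
  left := by
    intro i j
    refine Fin.cases ?_ (fun i => ?_) i <;> refine Fin.cases ?_ (fun j => ?_) j
    · exact O.one_mem
    · exact hr j
    · exact O.zero_mem
    · exact H.left i j
  right := by
    intro i j
    refine Fin.cases ?_ (fun i => ?_) i <;> refine Fin.cases ?_ (fun j => ?_) j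
    · exact O.one_mem
    · show -(∑ i, r i * h' i j) ∈ O
      exact O.neg_mem (O.sum_mem fun k _ => O.mul_mem (hr k) (H.right k j))
    · exact O.zero_mem
    · exact H.right i j
  mul := by
    rw [tri_mul, H.mul, neg_add_cancel, tri_one]
  mul' := by
    rw [tri_mul, H.mul', neg_vecMul, vecMul_vecMul, H.mul', vecMul_one, add_neg_cancel, tri_one]

/-- Values of the extended form. -/
theorem qf_ext {n : ℕ} (a : ℝ) (μ : Fin n → K) (z : Matrix (Fin n) (Fin n) K)
    (v : Fin (n + 1) → K) :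
    qf (ext a μ z) v = a * ‖row1 μ ⬝ᵥ v‖ ^ 2 + qf z (fun i => v i.succ) := by
  unfold qf ext
  rw [add_mulVec, dotProduct_add, map_add]
  congr 1
  · rw [smul_mulVec, dotProduct_smul, smul_eq_mul, RCLike.re_ofReal_mul]
    congr 1
    rw [vecMulVec_mulVec]
    have h1 : star v ⬝ᵥ (MulOpposite.op (row1 μ ⬝ᵥ v) • star (row1 μ)) =
      star (row1 μ ⬝ᵥ v) * (row1 μ ⬝ᵥ v) := by
      rw [dotProduct_smul, star_dotProduct_star]
      rfl
    rw [h1]
    have h2 : star (row1 μ ⬝ᵥ v) * (row1 μ ⬝ᵥ v) = ((‖row1 μ ⬝ᵥ v‖ ^ 2 : ℝ) : K) := by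
      rw [RCLike.star_def, RCLike.conj_mul]
      push_cast
      rfl
    rw [h2, RCLike.ofReal_re]
  · rw [← mulVec_mulVec, ← mulVec_mulVec, dotProduct_mulVec, ← star_mulVec, shiftM_mulVec]

theorem ext_zero_zero {n : ℕ} (a : ℝ) (μ : Fin n → K) (z : Matrix (Fin n) (Fin n) K) :
    ext a μ z 0 0 = a := by
  have h0 : ∀ j : Fin n, (0 : Fin (n + 1)) ≠ j.succ := fun j => (Fin.succ_ne_zero j).symm
  simp [ext, row1, shiftM, vecMulVec_apply, Matrix.mul_apply, h0, RCLike.real_smul_eq_coe_mul]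

theorem ext_zero_succ {n : ℕ} (a : ℝ) (μ : Fin n → K) (z : Matrix (Fin n) (Fin n) K)
    (j : Fin n) : ext a μ z 0 j.succ = a * μ j := by
  have h0 : ∀ j : Fin n, (0 : Fin (n + 1)) ≠ j.succ := fun j => (Fin.succ_ne_zero j).symm
  simp [ext, row1, shiftM, vecMulVec_apply, Matrix.mul_apply, h0, RCLike.real_smul_eq_coe_mul]

theorem ext_succ_zero {n : ℕ} (a : ℝ) (μ : Fin n → K) (z : Matrix (Fin n) (Fin n) K)
    (i : Fin n) : ext a μ z i.succ 0 = a * star (μ i) := by
  have h0 : ∀ j : Fin n, (0 : Fin (n + 1)) ≠ j.succ := fun j => (Fin.succ_ne_zero j).symm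
  simp [ext, row1, shiftM, vecMulVec_apply, Matrix.mul_apply, h0, RCLike.real_smul_eq_coe_mul]

theorem ext_succ_succ {n : ℕ} (a : ℝ) (μ : Fin n → K) (z : Matrix (Fin n) (Fin n) K)
    (i j : Fin n) : ext a μ z i.succ j.succ = a * (star (μ i) * μ j) + z i j := by
  simp [ext, row1, shiftM, vecMulVec_apply, Matrix.mul_apply, RCLike.real_smul_eq_coe_mul]

theorem qf_single {n : ℕ} (x : Matrix (Fin n) (Fin n) K) (i : Fin n) :
    qf x (Pi.single i 1) = RCLike.re (x i i) := by
  unfold qf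
  have h1 : star (Pi.single i (1 : K) : Fin n → K) = Pi.single i 1 := by
    ext j
    by_cases h : j = i
    · subst h
      simp
    · simp [h]
  rw [h1, single_one_dotProduct, mulVec_single_one]
  rfl

/-- Permutation matrices. -/
def permM (K : Type*) [RCLike K] {n : ℕ} (σ : Equiv.Perm (Fin n)) :
    Matrix (Fin n) (Fin n) K :=
  Matrix.of fun i k => if i = σ k then 1 else 0

theorem permM_mul {n : ℕ} (σ τ : Equiv.Perm (Fin n)) :
    permM K σ * permM K τ = permM K (σ * τ) := by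
  ext i k
  rw [Matrix.mul_apply]
  show ∑ j, (if i = σ j then (1 : K) else 0) * (if j = τ k then 1 else 0) =
    if i = σ (τ k) then 1 else 0
  rw [Finset.sum_eq_single (τ k)]
  · rw [if_pos rfl, mul_one]
  · intro j _ hj
    rw [if_neg hj, mul_zero]
  · intro h
    exact absurd (Finset.mem_univ _) h

theorem permM_one {n : ℕ} : permM K (1 : Equiv.Perm (Fin n)) = 1 := by
  ext i k
  rfl

theorem isInv_permM (O : Subring K) {n : ℕ} (σ : Equiv.Perm (Fin n)) :
    IsInv O (permM K σ) (permM K σ⁻¹) where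
  left := fun i j => by
    show (if i = σ j then (1 : K) else 0) ∈ O
    split_ifs
    · exact O.one_mem
    · exact O.zero_mem
  right := fun i j => by
    show (if i = σ⁻¹ j then (1 : K) else 0) ∈ O
    split_ifs
    · exact O.one_mem
    · exact O.zero_mem
  mul := by rw [permM_mul, mul_inv_cancel, permM_one]
  mul' := by rw [permM_mul, inv_mul_cancel, permM_one]

/-- The Schur complement. -/
theorem exists_ext {n : ℕ} {y : Matrix (Fin (n + 1)) (Fin (n + 1)) K} (hy : y.IsHermitian)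
    (hp : IsPD y) : ∃ (a : ℝ) (μ : Fin n → K) (z : Matrix (Fin n) (Fin n) K), 0 < a ∧
      z.IsHermitian ∧ IsPD z ∧ y = ext a μ z := by
  have h00 : ((RCLike.re (y 0 0) : ℝ) : K) = y 0 0 := hy.coe_re_apply_self 0
  have ha : 0 < RCLike.re (y 0 0) := by
    rw [← qf_single]
    refine hp _ fun h => ?_
    have h1 := congrFun h 0
    rw [Pi.single_eq_same, Pi.zero_apply] at h1
    exact one_ne_zero h1
  set a := RCLike.re (y 0 0) with hadef
  have haK : (a : K) ≠ 0 := by
    rw [Ne, RCLike.ofReal_eq_zero]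
    exact ha.ne'
  have hsy : ∀ i j, star (y i j) = y j i := fun i j => hy.apply j i
  have e : y = ext a (fun j => y 0 j.succ / a)
      (Matrix.of fun i j => y i.succ j.succ - a * (star (y 0 i.succ / a) * (y 0 j.succ / a))) := by
    ext i j
    refine Fin.cases ?_ (fun i => ?_) i <;> refine Fin.cases ?_ (fun j => ?_) j
    · rw [ext_zero_zero, h00]
    · rw [ext_zero_succ, mul_div_cancel₀ _ haK]
    · rw [ext_succ_zero, star_div₀, hsy]
      have : star (a : K) = a := by simp
      rw [this, mul_div_cancel₀ _ haK]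
    · rw [ext_succ_succ, Matrix.of_apply]
      ring
  refine ⟨a, _, _, ha, ?_, ?_, e⟩
  · ext i j
    rw [conjTranspose_apply, Matrix.of_apply, Matrix.of_apply, star_sub, hsy, star_mul, star_mul,
      star_star]
    have : star (a : K) = a := by simp
    rw [this]
    ring
  · intro w hw
    set μ : Fin n → K := fun j => y 0 j.succ / a
    set v : Fin (n + 1) → K := Fin.cons (-(μ ⬝ᵥ w)) w with hv
    have hv0 : v ≠ 0 := by
      intro h
      apply hw
      ext i
      have := congrFun h i.succ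
      simpa [hv] using this
    have h1 := hp v hv0
    rw [e, qf_ext] at h1
    have h2 : row1 μ ⬝ᵥ v = 0 := by
      simp [row1, hv, dotProduct, Fin.sum_univ_succ]
    rw [h2] at h1
    simpa [hv] using h1

end Pool.Agent.Lib.Pad47bbY
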